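import Pool.Agent.Y671.BN.Met
import Pool.Agent.W555.Ex3

/-!
The submanifold `t = 0`, `y ∈ j(F)` of the manifold `ℝ × ℝ × K` with the metric
`dt² + α² dr² + β² |dy|²`: tension and bitension field.
-/

set_option autoImplicit false

namespace Pool.Agent.Y671.BN

open scoped ContDiff Topology
open Pool.Agent.W555.RG

variable {K : Type} [NormedAddCommGroup K] [InnerProductSpace ℝ K]
variable {F : Type} [NormedAddCommGroup F] [InnerProductSpace ℝ F]

/-- the vector space with coordinates `(r, y)` -/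
abbrev MF (F : Type) [NormedAddCommGroup F] [InnerProductSpace ℝ F] : Type := ℝ × F

/-- the boundary data of the metric along `t = 0`; `κ` is the dimension of `F` -/
structure Bd (D : AB) (κ : ℝ) where
  W : ℝ → ℝ
  w : ℝ → ℝ
  a : ℝ → ℝ
  a1 : ℝ → ℝ
  b : ℝ → ℝ
  b1 : ℝ → ℝ
  q : ℝ → ℝ
  H : ℝ → ℝ
  H1 : ℝ → ℝ
  H2 : ℝ → ℝ
  dW : ∀ r, HasDerivAt W (W r * w r) r
  da : ∀ r, HasDerivAt a (a1 r) r
  db : ∀ r, HasDerivAt b (b1 r) r
  dH : ∀ r, HasDerivAt H (H1 r) r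
  dH1 : ∀ r, HasDerivAt H1 (H2 r) r
  sW : ContDiff ℝ ∞ W
  W_pos : ∀ r, 0 < W r
  α0 : ∀ r, D.α 0 r = 1
  αt0 : ∀ r, D.αt 0 r = -a r
  αr0 : ∀ r, D.αr 0 r = 0
  αtt0 : ∀ r, D.αtt 0 r = q r
  αtr0 : ∀ r, D.αtr 0 r = -a1 r
  β0 : ∀ r, D.β 0 r = W r
  βt0 : ∀ r, D.βt 0 r = -(W r * b r)
  βr0 : ∀ r, D.βr 0 r = W r * w r
  βtt0 : ∀ r, D.βtt 0 r = W r
  βtr0 : ∀ r, D.βtr 0 r = -(W r * (w r * b r + b1 r))
  hab : ∀ r, a r + κ * b r = (κ + 1) * H r
  ode1 : ∀ r, H2 r + κ * (w r * H1 r) = H r * (a r ^ 2 + κ * b r ^ 2 + q r + κ)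
  ode2 : ∀ r, a1 r * H r + 2 * (a r * H1 r) =
    2 * (κ * ((b r - a r) * H r * w r)) + κ * (H r * b1 r)

namespace Bd

variable {D : AB} {κ : ℝ} (E : Bd D κ)

/-- the metric form `dr² + W² |dy|²` -/
noncomputable def gform (y : MF F) : LinearMap.BilinForm ℝ (MF F) :=
  LinearMap.mk₂ ℝ (fun U V => U.1 * V.1 + E.W y.1 ^ 2 * inner ℝ U.2 V.2)
    (fun U U' V => by simp only [Prod.fst_add, Prod.snd_add, inner_add_left]; ring)
    (fun k U V => by simp only [Prod.smul_fst, Prod.smul_snd, real_inner_smul_left, smul_eq_mul]; ring)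
    (fun U V V' => by simp only [Prod.fst_add, Prod.snd_add, inner_add_right]; ring)
    (fun k U V => by simp only [Prod.smul_fst, Prod.smul_snd, real_inner_smul_right, smul_eq_mul]; ring)

theorem gform_apply (y U V : MF F) :
    E.gform y U V = U.1 * V.1 + E.W y.1 ^ 2 * inner ℝ U.2 V.2 := rfl

/-- the Riemannian metric `dr² + W² |dy|²` -/
noncomputable def g : RMetric (MF F) where
  form := E.gform
  symm' x U V := by rw [gform_apply, gform_apply, real_inner_comm]; ring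
  pos' x U hU := by
    rw [gform_apply, real_inner_self_eq_norm_sq]
    have hW := E.W_pos x.1
    have a1 : 0 ≤ U.1 * U.1 := mul_self_nonneg _
    have a4 : 0 ≤ E.W x.1 ^ 2 * ‖U.2‖ ^ 2 := by positivity
    by_cases h1 : U.1 = 0
    · have h4 : U.2 ≠ 0 := fun h4 => hU (Prod.ext h1 h4)
      have : 0 < ‖U.2‖ := norm_pos_iff.mpr h4
      have : 0 < E.W x.1 ^ 2 * ‖U.2‖ ^ 2 := by positivity
      linarith
    · have : 0 < U.1 * U.1 := mul_self_pos.mpr h1
      linarith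
  smooth' U V := by
    simp only [gform_apply]
    have h1 : ContDiff ℝ ∞ (fun x : MF F => E.W x.1) := E.sW.comp contDiff_fst
    exact contDiff_const.add ((h1.pow 2).mul contDiff_const)

theorem g_form (y U V : MF F) :
    E.g.form y U V = U.1 * V.1 + E.W y.1 ^ 2 * inner ℝ U.2 V.2 := rfl

theorem fderiv_g (y U V X : MF F) : fderiv ℝ (fun z => E.g.form z U V) y X =
    2 * E.W y.1 ^ 2 * E.w y.1 * X.1 * inner ℝ U.2 V.2 := by
  simp only [g_form]
  have h0 : HasDerivAt (fun r => U.1 * V.1 + E.W r ^ 2 * inner ℝ U.2 V.2)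
      (2 * E.W y.1 ^ 2 * E.w y.1 * inner ℝ U.2 V.2) y.1 := by
    have := (((E.dW y.1).pow 2).mul_const (inner ℝ U.2 V.2)).const_add (U.1 * V.1)
    refine this.congr_deriv ?_
    push_cast
    ring
  have h1 : HasFDerivAt (fun z : MF F => z.1) (ContinuousLinearMap.fst ℝ ℝ F) y :=
    (ContinuousLinearMap.fst ℝ ℝ F).hasFDerivAt
  have h2 := h0.comp_hasFDerivAt y h1
  have h3 : fderiv ℝ (fun z : MF F => U.1 * V.1 + E.W z.1 ^ 2 * inner ℝ U.2 V.2) y =
    (2 * E.W y.1 ^ 2 * E.w y.1 * inner ℝ U.2 V.2) • ContinuousLinearMap.fst ℝ ℝ F :=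
    h2.fderiv
  rw [h3]
  simp only [_root_.smul_apply, ContinuousLinearMap.coe_fst', smul_eq_mul]
  ring

theorem Gam_g (y U V : MF F) : E.g.Gam y U V =
    (-(E.w y.1 * (E.W y.1 ^ 2 * inner ℝ U.2 V.2)),
      (E.w y.1 * U.1) • V.2 + (E.w y.1 * V.1) • U.2) := by
  apply RMetric.Gam_eq
  intro w
  rw [fderiv_g, fderiv_g, fderiv_g, g_form]
  simp only [inner_add_left, real_inner_smul_left]
  ring

section frame

variable [FiniteDimensional ℝ F]

omit [FiniteDimensional ℝ F] in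
theorem finrank_MF' [FiniteDimensional ℝ F] :
    Module.finrank ℝ (MF F) = Module.finrank ℝ F + 1 := by
  simp only [MF, Module.finrank_prod, Module.finrank_self]
  ring

theorem exists_ortho (y : MF F) : ∃ e, E.g.IsOrtho y e := by
  have hW := E.W_pos y.1
  let ob := stdOrthonormalBasis ℝ F
  let b : Fin (Module.finrank ℝ F + 1) → MF F :=
    Fin.cons ((1 : ℝ), (0 : F)) (fun j => ((0 : ℝ), (E.W y.1)⁻¹ • ob j))
  have hb : ∀ i j, E.g.form y (b i) (b j) = if i = j then 1 else 0 := by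
    intro i j
    refine Fin.cases ?_ (fun i => ?_) i
    · refine Fin.cases ?_ (fun j => ?_) j
      · simp [b, g_form]
      · simp [b, g_form, (Fin.succ_ne_zero _).symm]
    · refine Fin.cases ?_ (fun j => ?_) j
      · simp [b, g_form]
      · simp only [b, g_form, Fin.cons_succ, real_inner_smul_left, real_inner_smul_right,
          Fin.succ_inj]
        have := orthonormal_iff_ite.mp ob.orthonormal i j
        rw [this]
        by_cases hij : i = j
        · simp only [hij, if_true]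
          field_simp
          ring
        · simp [hij]
  refine ⟨fun i => b (Fin.cast finrank_MF' i), fun i j => ?_⟩
  rw [hb]
  simp

theorem ortho (y : MF F) : E.g.IsOrtho y (E.g.frame y) := E.g.frame_ortho y (E.exists_ortho y)

theorem sum_1 (y : MF F) :
    ∑ i, (E.g.frame y i).1 • E.g.frame y i = ((1 : ℝ), (0 : F)) := by
  have h := E.g.expand y _ (E.ortho y) ((1 : ℝ), (0 : F))
  simpa [g_form] using h

theorem sum_11 (y : MF F) : ∑ i, (E.g.frame y i).1 * (E.g.frame y i).1 = 1 := by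
  have h := congrArg Prod.fst (E.sum_1 y)
  simpa [Prod.fst_sum] using h

theorem sum_12 (y : MF F) : ∑ i, (E.g.frame y i).1 • (E.g.frame y i).2 = 0 := by
  have h := congrArg Prod.snd (E.sum_1 y)
  simpa [Prod.snd_sum] using h

theorem sum_g (y : MF F) : ∑ i, ((E.g.frame y i).1 * (E.g.frame y i).1 +
    E.W y.1 ^ 2 * inner ℝ (E.g.frame y i).2 (E.g.frame y i).2) =
      (Module.finrank ℝ F : ℝ) + 1 := by
  have h : ∀ i, (E.g.frame y i).1 * (E.g.frame y i).1 +
      E.W y.1 ^ 2 * inner ℝ (E.g.frame y i).2 (E.g.frame y i).2 = 1 := by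
    intro i
    have := E.ortho y i i
    rw [g_form] at this
    simpa using this
  simp only [h, Finset.sum_const, Finset.card_univ, Fintype.card_fin, nsmul_eq_mul, mul_one]
  rw [finrank_MF']
  push_cast
  ring

theorem sum_22 (y : MF F) : ∑ i, E.W y.1 ^ 2 *
    inner ℝ (E.g.frame y i).2 (E.g.frame y i).2 = (Module.finrank ℝ F : ℝ) := by
  have h := E.sum_g y
  rw [Finset.sum_add_distrib, E.sum_11] at h
  linarith

/-- The trace of a bilinear expression in the `r`, `y` components. -/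
theorem trace_lin (hκ : κ = (Module.finrank ℝ F : ℝ)) (y : MF F) (A B : ℝ) :
    ∑ i, (A * ((E.g.frame y i).1 * (E.g.frame y i).1)
      + B * (E.W y.1 ^ 2 * inner ℝ (E.g.frame y i).2 (E.g.frame y i).2)) = A + κ * B := by
  have e1 : ∑ i, A * ((E.g.frame y i).1 * (E.g.frame y i).1) = A := by
    rw [← Finset.mul_sum, E.sum_11, mul_one]
  have e2 : ∑ i, B * (E.W y.1 ^ 2 * inner ℝ (E.g.frame y i).2 (E.g.frame y i).2) = κ * B := by
    have := congrArg (fun z => B * z) (E.sum_22 y)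
    simp only [Finset.mul_sum] at this
    exact this.trans (by rw [← hκ]; ring)
  rw [Finset.sum_add_distrib, e1, e2]

end frame

variable (j : F →ₗᵢ[ℝ] K)

/-- the immersion as a continuous linear map -/
noncomputable def Phi : MF F →L[ℝ] NK K :=
  (0 : MF F →L[ℝ] ℝ).prod ((ContinuousLinearMap.fst ℝ ℝ F).prod
    (j.toContinuousLinearMap.comp (ContinuousLinearMap.snd ℝ ℝ F)))

/-- the immersion `(r, y) ↦ (0, r, j y)` -/
def φ : MF F → NK K := fun y => (0, y.1, j y.2)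

theorem φ_eq : φ j = (Phi j : MF F → NK K) := rfl

theorem fderiv_φ (y v : MF F) : fderiv ℝ (φ j) y v = (0, v.1, j v.2) := by
  rw [φ_eq, (Phi j).hasFDerivAt.fderiv]; rfl

@[simp] theorem φ_1 (y : MF F) : (φ j y).1 = 0 := rfl
@[simp] theorem φ_21 (y : MF F) : (φ j y).2.1 = y.1 := rfl

theorem isometric : IsIsometricImmersion E.g D.h (φ j) := by
  refine ⟨by rw [φ_eq]; exact (Phi j).contDiff, fun x u v => ?_⟩
  rw [fderiv_φ, fderiv_φ, g_form, AB.h_form]
  simp only [φ_1, φ_21, E.α0, E.β0, j.inner_map_map]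
  ring

theorem Gam_φ (y : MF F) (U V : NK K) : D.h.Gam (φ j y) U V =
    (E.a y.1 * (U.2.1 * V.2.1) + E.b y.1 * (E.W y.1 ^ 2 * inner ℝ U.2.2 V.2.2),
      -(E.a y.1 * (U.1 * V.2.1 + U.2.1 * V.1)) - E.w y.1 * (E.W y.1 ^ 2 * inner ℝ U.2.2 V.2.2),
      (-(E.b y.1) * U.1 + E.w y.1 * U.2.1) • V.2.2
        + (-(E.b y.1) * V.1 + E.w y.1 * V.2.1) • U.2.2) := by
  have hW := (E.W_pos y.1).ne'
  have e1 : -(E.W y.1 * E.b y.1) / E.W y.1 = -(E.b y.1) := by field_simp
  have e2 : E.W y.1 * E.w y.1 / E.W y.1 = E.w y.1 := by field_simp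
  rw [AB.Gam_h]
  simp only [φ_1, φ_21, E.α0, E.β0, E.αt0, E.βt0, E.αr0, E.βr0, e1, e2]
  refine Prod.ext ?_ (Prod.ext ?_ rfl)
  · simp only
    ring
  · simp only
    ring

theorem nablaD_φ (y u v : MF F) : nablaD E.g D.h (φ j) y u v =
    (E.a y.1 * (u.1 * v.1) + E.b y.1 * (E.W y.1 ^ 2 * inner ℝ u.2 v.2), 0, 0) := by
  unfold nablaD
  simp only [fderiv_φ, E.Gam_φ, Gam_g]
  refine Prod.ext ?_ (Prod.ext ?_ ?_)
  · simp
  · simp
  · simp

variable [FiniteDimensional ℝ F] (hκ : κ = (Module.finrank ℝ F : ℝ))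

include hκ in
theorem tension_φ (y : MF F) : tension E.g D.h (φ j) y = ((κ + 1) * E.H y.1, 0, 0) := by
  unfold tension RMetric.trace
  simp only [nablaD_φ]
  refine Prod.ext ?_ (Prod.ext ?_ ?_)
  · simp only [Prod.fst_sum]
    rw [E.trace_lin hκ y (E.a y.1) (E.b y.1), E.hab]
  · simp [Prod.snd_sum]
  · simp [Prod.snd_sum]

omit [FiniteDimensional ℝ F] in
theorem hasFDerivAt_R {k : ℝ → ℝ} {k' : ℝ} (y : MF F) (h : HasDerivAt k k' y.1) :
    HasFDerivAt (fun z : MF F => k z.1) (k' • ContinuousLinearMap.fst ℝ ℝ F) y := by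
  have h1 : HasFDerivAt (fun z : MF F => z.1) (ContinuousLinearMap.fst ℝ ℝ F) y :=
    (ContinuousLinearMap.fst ℝ ℝ F).hasFDerivAt
  exact h.comp_hasFDerivAt y h1

include hκ in
theorem covD_tension (y v : MF F) : covD D.h (φ j) (tension E.g D.h (φ j)) y v =
    ((κ + 1) * E.H1 y.1 * v.1, -((κ + 1) * (E.a y.1 * E.H y.1) * v.1),
      (-((κ + 1) * (E.b y.1 * E.H y.1))) • j v.2) := by
  unfold covD
  have h0 : tension E.g D.h (φ j) = fun z => ((κ + 1) * E.H z.1, 0, 0) :=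
    funext fun z => E.tension_φ j hκ z
  rw [h0]
  have h1 : HasFDerivAt (fun z : MF F => (((κ + 1) * E.H z.1, 0, 0) : NK K)) _ y :=
    (hasFDerivAt_R y ((E.dH y.1).const_mul (κ + 1))).prodMk (hasFDerivAt_const _ _)
  rw [h1.fderiv, fderiv_φ, E.Gam_φ]
  refine Prod.ext ?_ (Prod.ext ?_ ?_)
  · simp
  · simp
    ring
  · simp
    module

include hκ in
theorem covD2_tension (y u v : MF F) :
    covD D.h (φ j) (fun z => covD D.h (φ j) (tension E.g D.h (φ j)) z v) y u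
      - covD D.h (φ j) (tension E.g D.h (φ j)) y (E.g.Gam y u v) =
    ((κ + 1) * (E.H2 y.1 - E.a y.1 ^ 2 * E.H y.1) * (u.1 * v.1)
        + (κ + 1) * (E.H1 y.1 * E.w y.1 - E.b y.1 ^ 2 * E.H y.1)
          * (E.W y.1 ^ 2 * inner ℝ u.2 v.2),
      -((κ + 1) * (E.a1 y.1 * E.H y.1 + 2 * (E.a y.1 * E.H1 y.1))) * (u.1 * v.1)
        + (κ + 1) * ((E.b y.1 - E.a y.1) * E.H y.1 * E.w y.1) * (E.W y.1 ^ 2 * inner ℝ u.2 v.2),
      (-((κ + 1) * (E.b1 y.1 * E.H y.1 + E.b y.1 * E.H1 y.1))) • (u.1 • j v.2)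
        + ((κ + 1) * ((E.b y.1 - E.a y.1) * E.H y.1 * E.w y.1 - E.b y.1 * E.H1 y.1))
          • (v.1 • j u.2)) := by
  simp only [E.covD_tension j hκ]
  unfold covD
  have h1 : HasFDerivAt (fun z : MF F => (((κ + 1) * E.H1 z.1 * v.1,
      -((κ + 1) * (E.a z.1 * E.H z.1) * v.1),
      (-((κ + 1) * (E.b z.1 * E.H z.1))) • j v.2) : NK K)) _ y :=
    (hasFDerivAt_R y (((E.dH1 y.1).const_mul (κ + 1)).mul_const v.1)).prodMk
      ((hasFDerivAt_R y (((((E.da y.1).mul (E.dH y.1)).const_mul (κ + 1)).mul_const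
          v.1).neg)).prodMk
        ((hasFDerivAt_R y ((((E.db y.1).mul (E.dH y.1)).const_mul (κ + 1)).neg)).smul_const
          (j v.2)))
  rw [h1.fderiv, fderiv_φ, E.Gam_φ, Gam_g]
  refine Prod.ext ?_ (Prod.ext ?_ ?_)
  · simp [real_inner_smul_right]
    ring
  · simp [real_inner_smul_right]
    ring
  · simp
    module

omit [FiniteDimensional ℝ F] in
theorem curv_φ (y u v : MF F) (k : ℝ) :
    D.h.curv (φ j y) (0, u.1, j u.2) (k, 0, 0) (0, v.1, j v.2) =
      (k * E.q y.1 * (u.1 * v.1) + k * (E.W y.1 ^ 2 * inner ℝ u.2 v.2),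
        k * ((E.a y.1 - E.b y.1) * E.w y.1 - E.b1 y.1) * (E.W y.1 ^ 2 * inner ℝ u.2 v.2),
        (-(k * ((E.a y.1 - E.b y.1) * E.w y.1 - E.b1 y.1))) • (v.1 • j u.2)) := by
  have hW := (E.W_pos y.1).ne'
  unfold RMetric.curv
  rw [AB.fderiv_Gam, AB.fderiv_Gam]
  simp only [E.Gam_φ]
  unfold AB.dp AB.dq
  simp only [φ_1, φ_21, E.α0, E.β0, E.αt0, E.βt0, E.αr0, E.βr0, E.αtt0, E.βtt0, E.αtr0, E.βtr0]
  refine Prod.ext ?_ (Prod.ext ?_ ?_)
  · simp [real_inner_smul_right]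
    field_simp
    ring
  · simp [real_inner_smul_right]
    field_simp
    ring
  · simp
    have e1 : E.W y.1 * E.w y.1 / E.W y.1 = E.w y.1 := by field_simp
    have e2 : -(E.W y.1 * (E.w y.1 * E.b y.1 + E.b1 y.1)) / E.W y.1
      = -(E.w y.1 * E.b y.1 + E.b1 y.1) := by field_simp
    have e3 : E.W y.1 * E.b y.1 * (E.W y.1 * E.w y.1) / E.W y.1 ^ 2 = E.b y.1 * E.w y.1 := by
      field_simp
    simp only [neg_div, neg_mul, e3] at e2 ⊢
    simp only [← neg_div] at *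
    rw [e2]
    module

include hκ in
theorem bitension_φ (y : MF F) : bitension E.g D.h (φ j) y = 0 := by
  unfold bitension RMetric.trace
  simp only [E.covD2_tension j hκ, fderiv_φ, E.tension_φ j hκ, E.curv_φ]
  have hab := E.hab y.1
  refine Prod.ext ?_ (Prod.ext ?_ ?_)
  · simp only [Prod.fst_sub, Prod.fst_sum, Prod.fst_zero]
    have h2 := E.trace_lin hκ y ((κ + 1) * E.H y.1 * E.q y.1) ((κ + 1) * E.H y.1)
    rw [E.trace_lin hκ, h2]
    have := E.ode1 y.1
    linear_combination (κ + 1) * this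
  · simp only [Prod.snd_sub, Prod.fst_sub, Prod.snd_sum, Prod.fst_sum, Prod.snd_zero,
      Prod.fst_zero]
    have h2 := E.trace_lin hκ y 0
      ((κ + 1) * E.H y.1 * ((E.a y.1 - E.b y.1) * E.w y.1 - E.b1 y.1))
    simp only [zero_mul, zero_add] at h2
    rw [E.trace_lin hκ, h2]
    have := E.ode2 y.1
    linear_combination (-(κ + 1)) * this
  · simp only [Prod.snd_sub, Prod.snd_sum, Prod.snd_zero]
    have h12 : ∑ i, (E.g.frame y i).1 • j (E.g.frame y i).2 = 0 := by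
      have := congrArg j (E.sum_12 y)
      simpa [map_sum, map_smul] using this
    rw [Finset.sum_add_distrib, ← Finset.smul_sum, ← Finset.smul_sum, ← Finset.smul_sum, h12]
    simp

end Bd

end Pool.Agent.Y671.BN
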