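import Pool.Agent.Y671.BN.Main

/-!
The explicit one-variable data: `H(r) = 1/4 + arctan(r)/4096`, for every real `κ ≥ 1`.
-/

set_option autoImplicit false

namespace Pool.Agent.Y671.BN.Data

open scoped ContDiff Topology

noncomputable def ρ (r : ℝ) : ℝ := 1 + r ^ 2
noncomputable def H (r : ℝ) : ℝ := 1 / 4 + Real.arctan r / 4096
noncomputable def H1 (r : ℝ) : ℝ := (ρ r)⁻¹ / 4096
noncomputable def H2 (r : ℝ) : ℝ := -(r * (ρ r)⁻¹ ^ 2) / 2048
noncomputable def H3 (r : ℝ) : ℝ := -((ρ r)⁻¹ ^ 2 - 4 * r ^ 2 * (ρ r)⁻¹ ^ 3) / 2048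
noncomputable def s (r : ℝ) : ℝ := (H r + H r ^ 3)⁻¹
noncomputable def p (r : ℝ) : ℝ := (1 + H r ^ 2)⁻¹
noncomputable def i (r : ℝ) : ℝ := (H r)⁻¹
noncomputable def D1 (r : ℝ) : ℝ := (1 + 3 * H r ^ 2) * H1 r
noncomputable def D2 (r : ℝ) : ℝ := (1 + 3 * H r ^ 2) * H2 r + 6 * H r * H1 r ^ 2
noncomputable def E (r : ℝ) : ℝ := H1 r ^ 2 * s r
noncomputable def E1 (r : ℝ) : ℝ := 2 * (H1 r * H2 r) * s r - H1 r ^ 2 * D1 r * s r ^ 2
noncomputable def E2 (r : ℝ) : ℝ := 2 * (H2 r ^ 2 + H1 r * H3 r) * s r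
  - 4 * (H1 r * H2 r * D1 r * s r ^ 2) - H1 r ^ 2 * D2 r * s r ^ 2
  + 2 * (H1 r ^ 2 * D1 r ^ 2 * s r ^ 3)

/-! ### the constants -/

noncomputable def σ (κ : ℝ) : ℝ := (3 - κ) / (2 * (κ + 1) ^ 2)
noncomputable def c1 (κ : ℝ) : ℝ := κ * (κ + 1) * σ κ ^ 2
noncomputable def c2 (κ : ℝ) : ℝ := (1 - κ) / (κ + 1)
noncomputable def c3 (κ : ℝ) : ℝ := 2 * κ / (κ + 1)
noncomputable def μ (κ : ℝ) : ℝ := (κ + 1) / κ
noncomputable def ν (κ : ℝ) : ℝ := 2 / (κ + 1)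

noncomputable def η (κ r : ℝ) : ℝ :=
  -(c1 κ * E r ^ 2) + c2 κ * (H2 r * i r) + c3 κ * (H1 r ^ 2 * p r)
noncomputable def η1 (κ r : ℝ) : ℝ :=
  -(c1 κ * (2 * (E r * E1 r))) + c2 κ * (H3 r * i r - H2 r * H1 r * i r ^ 2)
    + c3 κ * (2 * (H1 r * H2 r) * p r - 2 * H r * H1 r ^ 3 * p r ^ 2)
noncomputable def w (κ r : ℝ) : ℝ :=
  4096 * μ κ * (ρ r * (H r + H r ^ 3)) + 2 * ν κ * (r * (ρ r)⁻¹) + ν κ * (H r * H1 r * p r)
noncomputable def w1 (κ r : ℝ) : ℝ :=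
  4096 * μ κ * (2 * r * (H r + H r ^ 3) + ρ r * D1 r)
    + 2 * ν κ * ((ρ r)⁻¹ - 2 * r ^ 2 * (ρ r)⁻¹ ^ 2)
    + ν κ * (H1 r ^ 2 * p r + H r * H2 r * p r - 2 * H r ^ 2 * H1 r ^ 2 * p r ^ 2)

theorem ρ_pos (r : ℝ) : 0 < ρ r := by unfold ρ; positivity
theorem ρ_one (r : ℝ) : 1 ≤ ρ r := by unfold ρ; nlinarith [sq_nonneg r]
theorem hρ (r : ℝ) : HasDerivAt ρ (2 * r) r := by
  have := ((hasDerivAt_id r).pow 2).const_add 1
  refine this.congr_deriv ?_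
  simp

theorem hρi (r : ℝ) : HasDerivAt (fun r => (ρ r)⁻¹) (-(2 * r) * (ρ r)⁻¹ ^ 2) r := by
  refine ((hρ r).inv (ρ_pos r).ne').congr_deriv ?_
  have := (ρ_pos r).ne'
  field_simp

theorem H_bd (r : ℝ) : 7 / 32 ≤ H r ∧ H r ≤ 9 / 32 := by
  have h1 := Real.arctan_lt_pi_div_two r
  have h2 := Real.neg_pi_div_two_lt_arctan r
  have h3 := Real.pi_lt_four
  unfold H
  constructor <;> linarith

theorem H_pos (r : ℝ) : 0 < H r := by linarith [(H_bd r).1]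

theorem hH (r : ℝ) : HasDerivAt H (H1 r) r := by
  refine (((Real.hasDerivAt_arctan r).div_const 4096).const_add (1 / 4)).congr_deriv ?_
  unfold H1 ρ
  simp

theorem hH1 (r : ℝ) : HasDerivAt H1 (H2 r) r := by
  refine ((hρi r).div_const 4096).congr_deriv ?_
  unfold H2
  ring

theorem hH2 (r : ℝ) : HasDerivAt H2 (H3 r) r := by
  refine ((((hasDerivAt_id r).mul ((hρi r).pow 2)).neg).div_const 2048).congr_deriv ?_
  unfold H3
  simp
  ring

theorem D_pos (r : ℝ) : 0 < H r + H r ^ 3 := by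
  have := H_pos r
  positivity

theorem hs (r : ℝ) : HasDerivAt s (-(D1 r) * s r ^ 2) r := by
  refine ((hH r).add ((hH r).pow 3)).inv (D_pos r).ne' |>.congr_deriv ?_
  have := (D_pos r).ne'
  simp only [Pi.add_apply, Pi.pow_apply]
  unfold D1 s
  field_simp
  push_cast
  ring

theorem hp (r : ℝ) : HasDerivAt p (-(2 * H r * H1 r) * p r ^ 2) r := by
  have hp0 : (1 + H r ^ 2) ≠ 0 := by positivity
  refine (((hH r).pow 2).const_add 1).inv hp0 |>.congr_deriv ?_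
  unfold p
  simp only [Pi.pow_apply]
  field_simp
  push_cast
  ring

theorem hi (r : ℝ) : HasDerivAt i (-(H1 r) * i r ^ 2) r := by
  have h0 := (H_pos r).ne'
  refine (hH r).inv h0 |>.congr_deriv ?_
  unfold i
  field_simp

theorem hD1 (r : ℝ) : HasDerivAt D1 (D2 r) r := by
  refine ((((((hH r).pow 2).const_mul 3).const_add 1)).mul (hH1 r)).congr_deriv ?_
  unfold D2
  simp only [Pi.pow_apply]
  push_cast
  ring

theorem hE (r : ℝ) : HasDerivAt E (E1 r) r := by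
  refine (((hH1 r).pow 2).mul (hs r)).congr_deriv ?_
  unfold E1
  simp only [Pi.pow_apply]
  push_cast
  ring

theorem hE1 (r : ℝ) : HasDerivAt E1 (E2 r) r := by
  refine (((((hH1 r).mul (hH2 r)).const_mul 2).mul (hs r)).sub
    ((((hH1 r).pow 2).mul (hD1 r)).mul ((hs r).pow 2))).congr_deriv ?_
  unfold E2
  simp only [Pi.pow_apply, Pi.mul_apply]
  push_cast
  ring

theorem hη (κ r : ℝ) : HasDerivAt (η κ) (η1 κ r) r := by
  refine ((((((hE r).pow 2).const_mul (c1 κ)).neg).add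
    (((hH2 r).mul (hi r)).const_mul (c2 κ))).add
    ((((hH1 r).pow 2).mul (hp r)).const_mul (c3 κ))).congr_deriv ?_
  unfold η1
  simp only [Pi.pow_apply]
  push_cast
  ring

theorem hw (κ r : ℝ) : HasDerivAt (w κ) (w1 κ r) r := by
  refine (((((hρ r).mul ((hH r).add ((hH r).pow 3))).const_mul (4096 * μ κ)).add
    (((hasDerivAt_id r).mul (hρi r)).const_mul (2 * ν κ))).add
      ((((hH r).mul (hH1 r)).mul (hp r)).const_mul (ν κ))).congr_deriv ?_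
  unfold w1 D1
  simp only [Pi.pow_apply, Pi.mul_apply, Pi.add_apply, id]
  push_cast
  ring

/-! ### bounds of the constants -/

section const

variable {κ : ℝ} (hκ : 1 ≤ κ)

include hκ

theorem κσ1_bd : |(κ + 1) * σ κ| ≤ 1 / 2 := by
  have h0 : 0 < κ + 1 := by linarith
  have e : (κ + 1) * σ κ = (3 - κ) / (2 * (κ + 1)) := by
    unfold σ; field_simp
  rw [e, abs_div, abs_of_pos (by positivity : 0 < 2 * (κ + 1)), div_le_iff₀ (by positivity)]
  rw [abs_le]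
  constructor <;> linarith

theorem σ_bd : |σ κ| ≤ 1 / 4 := by
  have h1 := κσ1_bd hκ
  rw [abs_mul, abs_of_pos (by linarith : 0 < κ + 1)] at h1
  have h2 : 2 * |σ κ| ≤ (κ + 1) * |σ κ| :=
    mul_le_mul_of_nonneg_right (by linarith) (abs_nonneg _)
  linarith

theorem κσ_bd : |κ * σ κ| ≤ 1 / 2 := by
  have h1 := κσ1_bd hκ
  rw [abs_mul, abs_of_pos (by linarith : 0 < κ + 1)] at h1
  rw [abs_mul, abs_of_pos (by linarith : 0 < κ)]
  have h2 : κ * |σ κ| ≤ (κ + 1) * |σ κ| :=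
    mul_le_mul_of_nonneg_right (by linarith) (abs_nonneg _)
  linarith

theorem c1_bd : |c1 κ| ≤ 1 / 4 := by
  have h1 := absmul_le (κσ_bd hκ) (κσ1_bd hκ)
  have e : c1 κ = κ * σ κ * ((κ + 1) * σ κ) := by unfold c1; ring
  rw [e]; linarith

theorem c2_bd : |c2 κ| ≤ 1 := by
  unfold c2
  rw [abs_div, abs_of_pos (by linarith : 0 < κ + 1), div_le_iff₀ (by linarith), abs_le]
  constructor <;> linarith

theorem c3_bd : |c3 κ| ≤ 2 := by
  unfold c3
  rw [abs_div, abs_of_pos (by linarith : 0 < κ + 1), div_le_iff₀ (by linarith), abs_le]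
  constructor <;> linarith

theorem μ_bd : 1 ≤ μ κ := by
  unfold μ
  rw [le_div_iff₀ (by linarith)]; linarith

theorem ν_bd : 0 < ν κ ∧ ν κ ≤ 1 := by
  unfold ν
  have h0 : 0 < κ + 1 := by linarith
  constructor
  · positivity
  · rw [div_le_iff₀ h0]; linarith

theorem ν_abs : |ν κ| ≤ 1 := by
  rw [abs_of_pos (ν_bd hκ).1]; exact (ν_bd hκ).2

end const

/-! ### bounds of the functions -/

theorem ρi_bd (r : ℝ) : 0 < (ρ r)⁻¹ ∧ (ρ r)⁻¹ ≤ 1 :=
  ⟨inv_pos.mpr (ρ_pos r), inv_le_one_of_one_le₀ (ρ_one r)⟩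

theorem ρρ (r : ℝ) : ρ r * (ρ r)⁻¹ = 1 := mul_inv_cancel₀ (ρ_pos r).ne'

theorem H1_pos (r : ℝ) : 0 < H1 r := by
  have := (ρi_bd r).1
  unfold H1; positivity

theorem H1_bd (r : ℝ) : |H1 r| ≤ 1 / 4096 := by
  rw [abs_of_pos (H1_pos r)]
  have := (ρi_bd r).2
  unfold H1; linarith

theorem rρ (r : ℝ) : |r * (ρ r)⁻¹| ≤ 1 / 2 := by
  have h := ρ_pos r
  rw [← div_eq_mul_inv, abs_div, abs_of_pos h, div_le_iff₀ h]
  unfold ρ
  nlinarith [sq_abs r, sq_nonneg (|r| - 1)]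

theorem r2ρ (r : ℝ) : |r ^ 2 * (ρ r)⁻¹| ≤ 1 := by
  have h := ρ_pos r
  rw [← div_eq_mul_inv, abs_div, abs_of_pos h, div_le_iff₀ h, abs_of_nonneg (sq_nonneg r)]
  unfold ρ
  linarith

theorem ρi_abs (r : ℝ) : |(ρ r)⁻¹| ≤ 1 := by
  rw [abs_of_pos (ρi_bd r).1]; exact (ρi_bd r).2

theorem H2_bd (r : ℝ) : |H2 r| ≤ 1 / 4096 := by
  have h1 := absmul_le (rρ r) (ρi_abs r)
  have h2 : H2 r = -(r * (ρ r)⁻¹ * (ρ r)⁻¹) / 2048 := by unfold H2; ring
  rw [h2, abs_div, abs_neg, abs_of_pos (by norm_num : (0 : ℝ) < 2048)]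
  linarith

theorem H3_bd (r : ℝ) : |H3 r| ≤ 5 / 2048 := by
  have h1 := absmul_le (ρi_abs r) (ρi_abs r)
  have h2 := absmul_le (r2ρ r) h1
  have h3 : H3 r = -((ρ r)⁻¹ * (ρ r)⁻¹ - 4 * (r ^ 2 * (ρ r)⁻¹ * ((ρ r)⁻¹ * (ρ r)⁻¹))) / 2048 := by
    unfold H3; ring
  rw [h3, abs_div, abs_neg, abs_of_pos (by norm_num : (0 : ℝ) < 2048)]
  have h4 := abs_sub ((ρ r)⁻¹ * (ρ r)⁻¹) (4 * (r ^ 2 * (ρ r)⁻¹ * ((ρ r)⁻¹ * (ρ r)⁻¹)))
  have h5 : |4 * (r ^ 2 * (ρ r)⁻¹ * ((ρ r)⁻¹ * (ρ r)⁻¹))| ≤ 4 := by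
    rw [abs_mul, abs_of_pos (by norm_num : (0 : ℝ) < 4)]; linarith
  linarith

theorem s_pos (r : ℝ) : 0 < s r := inv_pos.mpr (D_pos r)

theorem s_bd (r : ℝ) : |s r| ≤ 5 := by
  rw [abs_of_pos (s_pos r)]
  unfold s
  have h1 := (H_bd r).1
  have h2 := D_pos r
  have h3 : 0 < H r ^ 3 := pow_pos (H_pos r) 3
  rw [inv_le_comm₀ h2 (by norm_num)]
  linarith

theorem i_bd (r : ℝ) : |i r| ≤ 5 := by
  have h1 := (H_bd r).1
  have h2 := H_pos r
  unfold i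
  rw [abs_of_pos (inv_pos.mpr h2), inv_le_comm₀ h2 (by norm_num)]
  linarith

theorem p_pos (r : ℝ) : 0 < p r := by unfold p; positivity

theorem p_bd (r : ℝ) : |p r| ≤ 1 := by
  rw [abs_of_pos (p_pos r)]
  unfold p
  exact inv_le_one_of_one_le₀ (by nlinarith [sq_nonneg (H r)])

theorem H_abs (r : ℝ) : |H r| ≤ 9 / 32 := by
  rw [abs_of_pos (H_pos r)]; exact (H_bd r).2

theorem c_bd (r : ℝ) : |1 + 3 * H r ^ 2| ≤ 5 / 4 := by
  have h1 := sq_le_of_abs (H_abs r)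
  rw [abs_of_pos (by positivity)]
  nlinarith

theorem D1_bd (r : ℝ) : |D1 r| ≤ 1 / 1000 := by
  have := absmul_le (c_bd r) (H1_bd r)
  unfold D1
  linarith

theorem D2_bd (r : ℝ) : |D2 r| ≤ 1 / 1000 := by
  have h1 := absmul_le (c_bd r) (H2_bd r)
  have h2 := absmul_le (H_abs r) (absmul_le (H1_bd r) (H1_bd r))
  have h3 : D2 r = (1 + 3 * H r ^ 2) * H2 r + 6 * (H r * (H1 r * H1 r)) := by unfold D2; ring
  rw [h3]
  have h4 := abs_add_le ((1 + 3 * H r ^ 2) * H2 r) (6 * (H r * (H1 r * H1 r)))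
  have h5 : |6 * (H r * (H1 r * H1 r))| = 6 * |H r * (H1 r * H1 r)| := by
    rw [abs_mul]; norm_num
  linarith

theorem E_bd' (r : ℝ) : |E r| ≤ 1 / 1000 := by
  have h1 := absmul_le (absmul_le (H1_bd r) (H1_bd r)) (s_bd r)
  have h3 : E r = H1 r * H1 r * s r := by unfold E; ring
  rw [h3]
  linarith

theorem E1_bd (r : ℝ) : |E1 r| ≤ 1 / 1000 := by
  have h1 := absmul_le (absmul_le (H1_bd r) (H2_bd r)) (s_bd r)
  have h2 := absmul_le (absmul_le (absmul_le (H1_bd r) (H1_bd r)) (D1_bd r))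
    (absmul_le (s_bd r) (s_bd r))
  have h3 : E1 r = 2 * (H1 r * H2 r * s r) - (H1 r * H1 r * D1 r) * (s r * s r) := by
    unfold E1; ring
  rw [h3]
  obtain ⟨a1, a2⟩ := abs_le.mp h1
  obtain ⟨b1, b2⟩ := abs_le.mp h2
  rw [abs_le]
  constructor <;> linarith

theorem E2_bd (r : ℝ) : |E2 r| ≤ 1 / 1000 := by
  have h1 := absmul_le (absmul_le (H2_bd r) (H2_bd r)) (s_bd r)
  have h2 := absmul_le (absmul_le (H1_bd r) (H3_bd r)) (s_bd r)
  have h3 := absmul_le (absmul_le (absmul_le (H1_bd r) (H2_bd r)) (D1_bd r))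
    (absmul_le (s_bd r) (s_bd r))
  have h4 := absmul_le (absmul_le (absmul_le (H1_bd r) (H1_bd r)) (D2_bd r))
    (absmul_le (s_bd r) (s_bd r))
  have h5 := absmul_le (absmul_le (absmul_le (H1_bd r) (H1_bd r)) (absmul_le (D1_bd r) (D1_bd r)))
    (absmul_le (s_bd r) (absmul_le (s_bd r) (s_bd r)))
  have h6 : E2 r = 2 * (H2 r * H2 r * s r) + 2 * (H1 r * H3 r * s r)
      - 4 * ((H1 r * H2 r * D1 r) * (s r * s r)) - (H1 r * H1 r * D2 r) * (s r * s r)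
      + 2 * ((H1 r * H1 r * (D1 r * D1 r)) * (s r * (s r * s r))) := by
    unfold E2; ring
  rw [h6]
  obtain ⟨a1, a2⟩ := abs_le.mp h1
  obtain ⟨b1, b2⟩ := abs_le.mp h2
  obtain ⟨c1, c2⟩ := abs_le.mp h3
  obtain ⟨d1, d2⟩ := abs_le.mp h4
  obtain ⟨f1, f2⟩ := abs_le.mp h5
  rw [abs_le]
  constructor <;> linarith

theorem pD (r : ℝ) : p r * (1 + H r ^ 2) = 1 := by
  unfold p
  exact inv_mul_cancel₀ (by positivity)

theorem sD (r : ℝ) : s r * (H r + H r ^ 3) = 1 := inv_mul_cancel₀ (D_pos r).ne'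

theorem iH (r : ℝ) : i r * H r = 1 := inv_mul_cancel₀ (H_pos r).ne'

theorem ps (r : ℝ) : p r = H r * s r := by
  have h1 := pD r
  have h2 := sD r
  have h3 : (0 : ℝ) < 1 + H r ^ 2 := by positivity
  have h4 : p r * (1 + H r ^ 2) = H r * s r * (1 + H r ^ 2) := by
    linear_combination h1 - h2
  exact mul_right_cancel₀ h3.ne' h4

theorem η_bd {κ : ℝ} (hκ : 1 ≤ κ) (r : ℝ) : |η κ r| ≤ 1 / 100 := by
  have h1 := absmul_le (c1_bd hκ) (absmul_le (E_bd' r) (E_bd' r))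
  have h2 := absmul_le (c2_bd hκ) (absmul_le (H2_bd r) (i_bd r))
  have h3 := absmul_le (c3_bd hκ) (absmul_le (absmul_le (H1_bd r) (H1_bd r)) (p_bd r))
  have h6 : η κ r = -(c1 κ * (E r * E r)) + c2 κ * (H2 r * i r) + c3 κ * (H1 r * H1 r * p r) := by
    unfold η; ring
  rw [h6]
  obtain ⟨a1, a2⟩ := abs_le.mp h1
  obtain ⟨b1, b2⟩ := abs_le.mp h2
  obtain ⟨c1, c2⟩ := abs_le.mp h3
  rw [abs_le]
  constructor <;> linarith

theorem η1_bd {κ : ℝ} (hκ : 1 ≤ κ) (r : ℝ) : |η1 κ r| ≤ 1 / 20 := by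
  have h1 := absmul_le (c1_bd hκ) (absmul_le (E_bd' r) (E1_bd r))
  have h2 := absmul_le (c2_bd hκ) (absmul_le (H3_bd r) (i_bd r))
  have h3 := absmul_le (c2_bd hκ) (absmul_le (absmul_le (H2_bd r) (H1_bd r))
    (absmul_le (i_bd r) (i_bd r)))
  have h4 := absmul_le (c3_bd hκ) (absmul_le (absmul_le (H1_bd r) (H2_bd r)) (p_bd r))
  have h5 := absmul_le (c3_bd hκ) (absmul_le (absmul_le (H_abs r)
    (absmul_le (H1_bd r) (absmul_le (H1_bd r) (H1_bd r)))) (absmul_le (p_bd r) (p_bd r)))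
  have h6 : η1 κ r = -(2 * (c1 κ * (E r * E1 r))) + c2 κ * (H3 r * i r)
      - c2 κ * (H2 r * H1 r * (i r * i r)) + 2 * (c3 κ * (H1 r * H2 r * p r))
      - 2 * (c3 κ * (H r * (H1 r * (H1 r * H1 r)) * (p r * p r))) := by
    unfold η1; ring
  rw [h6]
  obtain ⟨a1, a2⟩ := abs_le.mp h1
  obtain ⟨b1, b2⟩ := abs_le.mp h2
  obtain ⟨c1, c2⟩ := abs_le.mp h3
  obtain ⟨d1, d2⟩ := abs_le.mp h4
  obtain ⟨f1, f2⟩ := abs_le.mp h5
  rw [abs_le]
  constructor <;> linarith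

/-- the main part of `w` -/
theorem w_lower {κ : ℝ} (hκ : 1 ≤ κ) (r : ℝ) :
    4096 * μ κ * (ρ r * (H r + H r ^ 3)) ≤ w κ r + 1 := by
  have h1 := (abs_le.mp (absmul_le (ν_abs hκ) (rρ r))).1
  have h2 : 0 < H r * H1 r * p r := mul_pos (mul_pos (H_pos r) (H1_pos r)) (p_pos r)
  have h3 := mul_pos (ν_bd hκ).1 h2
  unfold w
  linarith

theorem ρD {κ : ℝ} (hκ : 1 ≤ κ) (r : ℝ) : 100 ≤ 4096 * μ κ * (ρ r * (H r + H r ^ 3)) := by
  have h1 := ρ_one r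
  have h2 := (H_bd r).1
  have h3 : 0 < H r ^ 3 := pow_pos (H_pos r) 3
  have h4 : 1 * (7 / 32) ≤ ρ r * (H r + H r ^ 3) :=
    mul_le_mul h1 (by linarith) (by norm_num) (by linarith)
  have h5 : 1 * (1 * (7 / 32)) ≤ μ κ * (ρ r * (H r + H r ^ 3)) :=
    mul_le_mul (μ_bd hκ) h4 (by norm_num) (by linarith [μ_bd hκ])
  linarith

theorem w_bd {κ : ℝ} (hκ : 1 ≤ κ) (r : ℝ) : 99 ≤ w κ r := by
  have h1 := w_lower hκ r
  have h2 := ρD hκ r
  linarith

theorem w1_bd {κ : ℝ} (hκ : 1 ≤ κ) (r : ℝ) :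
    9 / 10 * w κ r ^ 2 ≤ w κ r ^ 2 + w1 κ r := by
  have hD := D_pos r
  have hμ := μ_bd hκ
  obtain ⟨hν0, hν1⟩ := ν_bd hκ
  have h1 : -(ρ r) ≤ 2 * r := by unfold ρ; nlinarith [sq_nonneg (r + 1)]
  have h2 := mul_le_mul_of_nonneg_right h1 hD.le
  have h2' := mul_le_mul_of_nonneg_left h2 (by linarith : 0 ≤ 4096 * μ κ)
  have h3 : 0 < ρ r * D1 r := by
    have : 0 < D1 r := by
      unfold D1
      have := H1_pos r
      positivity
    exact mul_pos (ρ_pos r) this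
  have h3' : 0 < 4096 * μ κ * (ρ r * D1 r) := mul_pos (by linarith) h3
  have h4 := mul_pos hν0 (ρi_bd r).1
  have h5 := absmul_le (ν_abs hκ) (absmul_le (r2ρ r) (ρi_abs r))
  have h5' := (abs_le.mp h5).2
  have h6 : 0 < ν κ * (H1 r ^ 2 * p r) := mul_pos hν0 (mul_pos (pow_pos (H1_pos r) 2) (p_pos r))
  have h7 := (abs_le.mp (absmul_le (ν_abs hκ) (absmul_le (absmul_le (H_abs r) (H2_bd r))
    (p_bd r)))).1
  have h8 := (abs_le.mp (absmul_le (ν_abs hκ) (absmul_le (absmul_le (absmul_le (H_abs r) (H_abs r))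
    (absmul_le (H1_bd r) (H1_bd r))) (absmul_le (p_bd r) (p_bd r))))).2
  have h9 := w_lower hκ r
  have hw1 : -(w κ r) - 8 ≤ w1 κ r := by
    have e1 : w1 κ r = 4096 * μ κ * (2 * r * (H r + H r ^ 3)) + 4096 * μ κ * (ρ r * D1 r)
        + 2 * (ν κ * (ρ r)⁻¹) - 4 * (ν κ * (r ^ 2 * (ρ r)⁻¹ * (ρ r)⁻¹))
        + (ν κ * (H1 r ^ 2 * p r) + ν κ * (H r * H2 r * p r)
          - 2 * (ν κ * (H r * H r * (H1 r * H1 r) * (p r * p r)))) := by
      unfold w1; ring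
    rw [e1]
    linarith
  have hw2 := w_bd hκ r
  have h12 : 99 * w κ r ≤ w κ r ^ 2 := by
    rw [pow_two]; exact mul_le_mul_of_nonneg_right hw2 (by linarith)
  linarith

/-! ### smoothness -/

theorem sH : ContDiff ℝ ∞ H := by
  unfold H
  exact contDiff_const.add (Real.contDiff_arctan.div_const 4096)

theorem sρ : ContDiff ℝ ∞ ρ := by unfold ρ; fun_prop

theorem sρi : ContDiff ℝ ∞ (fun r => (ρ r)⁻¹) := sρ.inv fun r => (ρ_pos r).ne'

theorem sH1 : ContDiff ℝ ∞ H1 := by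
  unfold H1
  exact sρi.div_const 4096

theorem sH2 : ContDiff ℝ ∞ H2 := by
  unfold H2
  exact ((contDiff_id.mul (sρi.pow 2)).neg).div_const 2048

theorem ss : ContDiff ℝ ∞ s := by
  have h : ContDiff ℝ ∞ (fun r => H r + H r ^ 3) := sH.add (sH.pow 3)
  exact h.inv fun r => (D_pos r).ne'

theorem sp : ContDiff ℝ ∞ p := by
  have h : ContDiff ℝ ∞ (fun r => 1 + H r ^ 2) := contDiff_const.add (sH.pow 2)
  exact h.inv fun r => by positivity

theorem si : ContDiff ℝ ∞ i := sH.inv fun r => (H_pos r).ne'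

theorem sE : ContDiff ℝ ∞ E := by
  unfold E
  exact (sH1.pow 2).mul ss

theorem sη (κ : ℝ) : ContDiff ℝ ∞ (η κ) := by
  unfold η
  exact ((contDiff_const.mul (sE.pow 2)).neg.add (contDiff_const.mul (sH2.mul si))).add
    (contDiff_const.mul ((sH1.pow 2).mul sp))

theorem sw (κ : ℝ) : ContDiff ℝ ∞ (w κ) := by
  unfold w
  exact ((contDiff_const.mul (sρ.mul (sH.add (sH.pow 3)))).add
    (contDiff_const.mul (contDiff_id.mul sρi))).add (contDiff_const.mul ((sH.mul sH1).mul sp))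

/-- the primitive of `w` -/
noncomputable def Q (κ r : ℝ) : ℝ := ∫ x in (0 : ℝ)..r, w κ x

theorem hQ (κ r : ℝ) : HasDerivAt (Q κ) (w κ r) r :=
  intervalIntegral.integral_hasDerivAt_right ((sw κ).continuous.intervalIntegrable _ _)
    ((sw κ).continuous.stronglyMeasurableAtFilter _ _) (sw κ).continuous.continuousAt

theorem sQ (κ : ℝ) : ContDiff ℝ ∞ (Q κ) := by
  rw [contDiff_infty_iff_deriv]
  refine ⟨fun r => (hQ κ r).differentiableAt, ?_⟩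
  have : deriv (Q κ) = w κ := funext fun r => (hQ κ r).deriv
  rw [this]
  exact sw κ

theorem hη1 (κ r : ℝ) : HasDerivAt (η1 κ) (deriv (η1 κ) r) r := by
  have h : ContDiff ℝ ∞ (η1 κ) := by
    have h1 : deriv (η κ) = η1 κ := funext fun r => (hη κ r).deriv
    rw [← h1]
    exact (contDiff_infty_iff_deriv.mp (sη κ)).2
  exact ((h.differentiable (by simp)) r).hasDerivAt

theorem wH1 (κ r : ℝ) : w κ r * H1 r =
    μ κ * (H r + H r ^ 3) - ν κ * H2 r + ν κ * (H r * H1 r ^ 2 * p r) := by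
  have h := ρρ r
  unfold w
  have e1 : 4096 * (ρ r * H1 r) = 1 := by
    unfold H1; linarith
  have e2 : H2 r = -(2 * (r * (ρ r)⁻¹)) * H1 r := by
    unfold H2 H1; ring
  rw [e2]
  linear_combination (μ κ * (H r + H r ^ 3)) * e1

/-- the key identity `(E H)' = (H'² p)'` -/
theorem EH (r : ℝ) : E1 r * H r + E r * H1 r =
    2 * (H1 r * H2 r) * p r - 2 * (H r * H1 r ^ 3 * p r ^ 2) := by
  have h2 := pD r
  have h3 := ps r
  have h6 : E1 r * H r = 2 * (H1 r * H2 r) * p r - H1 r ^ 2 * D1 r * (p r * s r) := by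
    unfold E1; rw [h3]; ring
  rw [h6]
  unfold E D1
  have h8 : s r = p r * (s r * (1 + H r ^ 2)) := by
    have : p r * (s r * (1 + H r ^ 2)) = s r * (p r * (1 + H r ^ 2)) := by ring
    rw [this, h2, mul_one]
  have h9 : (1 + 3 * H r ^ 2) * (p r * s r) - s r = 2 * H r * p r ^ 2 := by
    have : (1 + 3 * H r ^ 2) * (p r * s r) - s r =
        (1 + 3 * H r ^ 2) * (p r * s r) - p r * (s r * (1 + H r ^ 2)) := by rw [← h8]
    rw [this]
    have : (1 + 3 * H r ^ 2) * (p r * s r) - p r * (s r * (1 + H r ^ 2)) =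
      2 * H r * p r * (H r * s r) := by ring
    rw [this, ← h3]; ring
  linear_combination (-(H1 r ^ 3)) * h9

/-- the data -/
noncomputable def T0 {κ : ℝ} (hκ : 1 ≤ κ) : Dt κ where
  W r := Real.exp (Q κ r)
  w := w κ
  w1 := w1 κ
  a r := H r - κ * σ κ * E r
  a1 r := H1 r - κ * σ κ * E1 r
  a2 r := H2 r - κ * σ κ * E2 r
  b r := H r + σ κ * E r
  b1 r := H1 r + σ κ * E1 r
  b2 r := H2 r + σ κ * E2 r
  η := η κ
  η1 := η1 κ
  η2 := deriv (η1 κ)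
  H := H
  H1 := H1
  H2 := H2
  dW r := (hQ κ r).exp
  dw := hw κ
  da r := (hH r).sub ((hE r).const_mul _)
  da1 r := (hH1 r).sub ((hE1 r).const_mul _)
  db r := (hH r).add ((hE r).const_mul _)
  db1 r := (hH1 r).add ((hE1 r).const_mul _)
  dη := hη κ
  dη1 := hη1 κ
  sW := Real.contDiff_exp.comp (sQ κ)
  sa := sH.sub (contDiff_const.mul sE)
  sb := sH.add (contDiff_const.mul sE)
  sη := sη κ
  W_pos r := Real.exp_pos _
  ba r := by
    have h1 := abs_sub (H r) (κ * σ κ * E r)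
    have h2 := H_abs r
    have h3 := absmul_le (κσ_bd hκ) (E_bd' r)
    linarith
  bb r := by
    have h1 := abs_add_le (H r) (σ κ * E r)
    have h2 := H_abs r
    have h3 := absmul_le (σ_bd hκ) (E_bd' r)
    linarith
  bη := η_bd hκ
  bab r := by
    have h3 := absmul_le (κσ1_bd hκ) (E_bd' r)
    have e : H r - κ * σ κ * E r - (H r + σ κ * E r) = -((κ + 1) * σ κ * E r) := by ring
    rw [e, abs_neg]
    linarith
  ba1 r := by
    have h1 := abs_sub (H1 r) (κ * σ κ * E1 r)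
    have h2 := H1_bd r
    have h3 := absmul_le (κσ_bd hκ) (E1_bd r)
    linarith
  bb1 r := by
    have h1 := abs_add_le (H1 r) (σ κ * E1 r)
    have h2 := H1_bd r
    have h3 := absmul_le (σ_bd hκ) (E1_bd r)
    linarith
  bb2 r := by
    have h1 := abs_add_le (H2 r) (σ κ * E2 r)
    have h2 := H2_bd r
    have h3 := absmul_le (σ_bd hκ) (E2_bd r)
    linarith
  bη1 := η1_bd hκ
  bw r := by linarith [w_bd hκ r]
  bw1 := w1_bd hκ
  dH := hH
  dH1 := hH1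
  hab r := by ring
  ode1 r := by
    have h1 := wH1 κ r
    have h2 := iH r
    have hκ0 : κ ≠ 0 := by linarith
    have hκ1 : κ + 1 ≠ 0 := by linarith
    have e1 : κ * μ κ = κ + 1 := by unfold μ; field_simp
    have e2 : κ * ν κ = c3 κ := by unfold ν c3; ring
    have e3 : c2 κ = 1 - c3 κ := by unfold c2 c3; field_simp; ring
    have e4 : c1 κ = κ * (κ + 1) * σ κ ^ 2 := rfl
    unfold η
    rw [h1, e4]
    linear_combination (H r + H r ^ 3) * e1 + (H r * H1 r ^ 2 * p r - H2 r) * e2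
      - H2 r * e3 - c2 κ * H2 r * h2
  ode2 r := by
    have h1 := wH1 κ r
    have h2 := pD r
    have h3 := ps r
    have hk := EH r
    have hκ0 : κ ≠ 0 := by linarith
    have hκ1 : κ + 1 ≠ 0 := by linarith
    have e1 : κ * (κ + 1) * σ κ * μ κ * 2 = 3 - κ := by unfold μ σ; field_simp
    have e2 : κ * (κ + 1) * σ κ * ν κ = 2 * (κ * σ κ) := by unfold ν; field_simp
    -- `E H w = H1 p (w H1)`
    have h5 : E r * H r * w κ r = H1 r * p r * (w κ r * H1 r) := by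
      unfold E; rw [h3]; ring
    rw [h1] at h5
    have h6 : κ * ((H r + σ κ * E r - (H r - κ * σ κ * E r)) * H r * w κ r) =
        κ * (κ + 1) * σ κ * (E r * H r * w κ r) := by ring
    rw [h6, h5]
    have h7 : p r * (H r + H r ^ 3) = H r := by
      have : p r * (H r + H r ^ 3) = H r * (p r * (1 + H r ^ 2)) := by ring
      rw [this, h2, mul_one]
    linear_combination (-2 * κ * σ κ) * hk - (H1 r * H r) * e1
      - (2 * κ * (κ + 1) * σ κ * μ κ * H1 r) * h7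
      + (2 * H1 r * p r * (H2 r - H r * H1 r ^ 2 * p r)) * e2
  H_pos := H_pos

end Pool.Agent.Y671.BN.Data
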