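import Mathlib

/-!
The inequalities behind the sign of the curvature.
-/

set_option autoImplicit false

namespace Pool.Agent.Y671.BN

theorem absmul_le {x y p q : ℝ} (hx : |x| ≤ p) (hy : |y| ≤ q) : |x * y| ≤ p * q := by
  rw [abs_mul]
  exact mul_le_mul hx hy (abs_nonneg _) ((abs_nonneg _).trans hx)

theorem T_bd {T u : ℝ} (hT : T ^ 2 + u ^ 2 = 1) : |T| ≤ 1 := by
  rw [← sq_le_one_iff_abs_le_one]; nlinarith [sq_nonneg u]

theorem A_bd {T u a η : ℝ} (hu : 0 < u) (hu1 : u ≤ 1) (hT : T ^ 2 + u ^ 2 = 1) (ha : |a| ≤ 1 / 3)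
    (hη : |η| ≤ 1 / 100) :
    13 / 20 ≤ 1 + η - a * T - η * u ∧ 1 + η - a * T - η * u ≤ 27 / 20 := by
  have haT : |a * T| ≤ 1 / 3 * 1 := absmul_le ha (T_bd hT)
  have h1u : |1 - u| ≤ 1 := by rw [abs_le]; constructor <;> linarith
  have hηu := absmul_le hη h1u
  obtain ⟨h1, h2⟩ := abs_le.mp haT
  obtain ⟨h3, h4⟩ := abs_le.mp hηu
  constructor <;> linarith

theorem B_bd {T u b : ℝ} (hT : T ^ 2 + u ^ 2 = 1) (hb : |b| ≤ 1 / 3) :
    2 / 3 ≤ 1 - b * T ∧ 1 - b * T ≤ 4 / 3 := by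
  have hbT : |b * T| ≤ 1 / 3 * 1 := absmul_le hb (T_bd hT)
  obtain ⟨h1, h2⟩ := abs_le.mp hbT
  constructor <;> linarith

/-- the term with `X Y` -/
theorem XY_bd {T u a b η A B X Y : ℝ} (hu : 0 < u) (hT : T ^ 2 + u ^ 2 = 1)
    (ha : |a| ≤ 1 / 3) (hb : |b| ≤ 1 / 3) (hη : |η| ≤ 1 / 100)
    (hA : 13 / 20 ≤ A) (hA' : A ≤ 27 / 20) (hB : 2 / 3 ≤ B) (hB' : B ≤ 4 / 3)
    (hX : X = (1 + η) * T - a) (hY : Y = T - b) :
    -2 ≤ A * X * Y / u ^ 2 - 1 / 100 * (B * A ^ 2 / u ^ 2) := by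
  have e : A * X * Y / u ^ 2 - 1 / 100 * (B * A ^ 2 / u ^ 2) =
      A * (X * Y - 1 / 100 * (B * A)) / u ^ 2 := by ring
  rw [e, le_div_iff₀ (by positivity)]
  obtain ⟨ha1, ha2⟩ := abs_le.mp ha
  obtain ⟨hb1, hb2⟩ := abs_le.mp hb
  obtain ⟨hη1, hη2⟩ := abs_le.mp hη
  have hApos : 0 < A := by linarith
  have hBA : B * A ≤ 4 / 3 * (27 / 20) := mul_le_mul hB' hA' (by linarith) (by norm_num)
  have hu2 : 0 < u ^ 2 := by positivity
  by_cases h1 : 1 / 2 ≤ T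
  · have hηT : η * T ≥ -(1 / 100) * T := mul_le_mul_of_nonneg_right hη1 (by linarith)
    have hX1 : 8 / 50 ≤ X := by rw [hX]; linarith
    have hY1 : 1 / 6 ≤ Y := by rw [hY]; linarith
    have h2 : 8 / 50 * (1 / 6) ≤ X * Y := mul_le_mul hX1 hY1 (by norm_num) (by linarith)
    have h3 : 0 ≤ A * (X * Y - 1 / 100 * (B * A)) := mul_nonneg hApos.le (by linarith)
    linarith
  · by_cases h2 : T ≤ -(1 / 2)
    · have hηT : η * T ≤ -(1 / 100) * T :=  by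
        have := mul_le_mul_of_nonneg_right hη1 (by linarith : 0 ≤ -T)
        linarith
      have hX1 : 8 / 50 ≤ -X := by rw [hX]; linarith
      have hY1 : 1 / 6 ≤ -Y := by rw [hY]; linarith
      have h2 : 8 / 50 * (1 / 6) ≤ -X * -Y := mul_le_mul hX1 hY1 (by norm_num) (by linarith)
      have h2' : 8 / 50 * (1 / 6) ≤ X * Y := by linarith
      have h3 : 0 ≤ A * (X * Y - 1 / 100 * (B * A)) := mul_nonneg hApos.le (by linarith)
      linarith
    · push Not at h1 h2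
      have hTa : |T| ≤ 1 / 2 := abs_le.mpr ⟨h2.le, h1.le⟩
      have hT2 : T ^ 2 ≤ (1 / 2) ^ 2 := by
        have := pow_le_pow_left₀ (abs_nonneg _) hTa 2
        rwa [sq_abs] at this
      have hu2 : 3 / 4 ≤ u ^ 2 := by linarith
      obtain ⟨hηT1, hηT2⟩ := abs_le.mp (absmul_le hη hTa)
      have hXb : |X| ≤ 84 / 100 := by
        rw [hX, abs_le]; constructor <;> linarith
      have hYb : |Y| ≤ 84 / 100 := by
        rw [hY, abs_le]; constructor <;> linarith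
      have h3 := (abs_le.mp (absmul_le hXb hYb)).1
      have h5 : A * (-(X * Y - 1 / 100 * (B * A))) ≤
          27 / 20 * (84 / 100 * (84 / 100) + 1 / 100 * (4 / 3 * (27 / 20))) := by
        by_cases h6 : 0 ≤ -(X * Y - 1 / 100 * (B * A))
        · exact mul_le_mul hA' (by linarith) h6 (by norm_num)
        · push Not at h6
          have h7 : A * (-(X * Y - 1 / 100 * (B * A))) ≤ 0 :=
            mul_nonpos_of_nonneg_of_nonpos hApos.le h6.le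
          linarith
      have h8 : (27 / 20 * (84 / 100 * (84 / 100) + 1 / 100 * (4 / 3 * (27 / 20))) : ℝ) ≤ 3 / 2 := by
        norm_num
      linarith

/-- lower bound of the Hessian of `β` in the `r` direction -/
theorem E_bd {T b1 b2 w w1 A B Z R : ℝ} (hT1 : |T| ≤ 1) (hb1 : |b1| ≤ 1 / 20)
    (hb2 : |b2| ≤ 1 / 20) (hw : 20 ≤ w)
    (hw1 : 9 / 10 * w ^ 2 ≤ w ^ 2 + w1) (hA : 13 / 20 ≤ A)
    (hB : 2 / 3 ≤ B) (hB' : B ≤ 4 / 3) (hZ : |Z| ≤ 1 / 10) (hR : -2 ≤ R) :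
    1 / 2 * w ^ 2 ≤ (w ^ 2 + w1) * B - 2 * w * b1 * T - b2 * T - Z / A * (w * B - b1 * T) + R := by
  have hApos : 0 < A := by linarith
  have hb1T := absmul_le hb1 hT1
  have hb2T := (abs_le.mp (absmul_le hb2 hT1)).2
  have hZA : |Z / A| ≤ 4 / 25 := by
    rw [abs_div, abs_of_pos hApos, div_le_iff₀ hApos]
    linarith
  have hwB : |w * B - b1 * T| ≤ 4 / 3 * w + 1 / 20 := by
    have h1 : |w * B| ≤ w * (4 / 3) := by
      rw [abs_mul, abs_of_pos (by linarith : 0 < w), abs_of_pos (by linarith : 0 < B)]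
      exact mul_le_mul_of_nonneg_left hB' (by linarith)
    have h2 := abs_sub (w * B) (b1 * T)
    linarith
  have hZt := (abs_le.mp (absmul_le hZA hwB)).2
  have hwb : |w * (b1 * T)| ≤ w * (1 / 20 * 1) := by
    rw [abs_mul, abs_of_pos (by linarith : 0 < w)]
    exact mul_le_mul_of_nonneg_left hb1T (by linarith)
  have hwb' := (abs_le.mp hwb).2
  have hw2 : 0 ≤ w ^ 2 := sq_nonneg w
  have hw20 : 20 * w ≤ w ^ 2 := by
    rw [pow_two]; exact mul_le_mul_of_nonneg_right hw (by linarith)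
  have h1 : 9 / 10 * w ^ 2 * (2 / 3) ≤ (w ^ 2 + w1) * B :=
    mul_le_mul hw1 hB (by norm_num) (by linarith)
  have h2 : 2 * w * b1 * T = 2 * (w * (b1 * T)) := by ring
  rw [h2]
  linarith

/-- upper bound of the mixed Hessian of `β` -/
theorem P_bd {T u a b η b1 w A B X Y : ℝ} (hu : 0 < u) (hu1 : u ≤ 1)
    (hT : T ^ 2 + u ^ 2 = 1) (hb : |b| ≤ 1 / 3) (hη : |η| ≤ 1 / 100)
    (hab : |a - b| ≤ 1 / 100) (hb1 : |b1| ≤ 1 / 20) (hw : 20 ≤ w)
    (hA' : 13 / 20 ≤ A)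
    (hA : A = 1 + η - a * T - η * u) (hB : B = 1 - b * T) (hX : X = (1 + η) * T - a)
    (hY : Y = T - b) :
    (w * Y - b1 - X / A * (w * B - b1 * T)) ^ 2 ≤ 1 / 400 * w ^ 2 := by
  have hApos : 0 < A := by linarith
  have hT' : T ^ 2 = 1 - u ^ 2 := by linarith
  have hP : w * Y - b1 - X / A * (w * B - b1 * T) =
      (w * (A * Y - X * B) - b1 * (A - X * T)) / A := by
    field_simp
    ring
  have e1 : A * Y - X * B = (a - b) * u ^ 2 - η * (b * u ^ 2 + u * Y) := by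
    rw [hA, hB, hX, hY]
    linear_combination (b * (1 + η) - a) * hT'
  have e2 : A - X * T = (1 + η) * u ^ 2 - η * u := by
    rw [hA, hX]
    linear_combination (-(1 + η)) * hT'
  have hu2 : u ^ 2 ≤ 1 := pow_le_one₀ hu.le hu1
  have hu2' : |u ^ 2| ≤ 1 := by rw [abs_of_nonneg (by positivity)]; exact hu2
  have hu' : |u| ≤ 1 := by rw [abs_of_pos hu]; exact hu1
  have hYb : |Y| ≤ 4 / 3 := by
    rw [hY]
    have := abs_sub T b
    have := T_bd hT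
    linarith
  have f1 : |A * Y - X * B| ≤ 27 / 1000 := by
    rw [e1]
    have g1 := absmul_le hab hu2'
    have g2 := absmul_le hb hu2'
    have g3 := absmul_le hu' hYb
    have g4 : |b * u ^ 2 + u * Y| ≤ 5 / 3 :=
      (abs_add_le _ _).trans (by linarith)
    have g5 := absmul_le hη g4
    have g6 := abs_sub ((a - b) * u ^ 2) (η * (b * u ^ 2 + u * Y))
    linarith
  have f2 : |A - X * T| ≤ 11 / 10 := by
    rw [e2]
    have g1 := (abs_le.mp (absmul_le hη hu2'))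
    have g2 := (abs_le.mp (absmul_le hη hu'))
    have g5 : 0 ≤ u ^ 2 := sq_nonneg u
    rw [abs_le]
    constructor <;> linarith
  have f3 : |w * (A * Y - X * B)| ≤ w * (27 / 1000) := by
    rw [abs_mul, abs_of_pos (by linarith : 0 < w)]
    exact mul_le_mul_of_nonneg_left f1 (by linarith)
  have f4 := absmul_le hb1 f2
  have f5 : |w * (A * Y - X * B) - b1 * (A - X * T)| ≤ 3 / 100 * w := by
    have g6 := abs_sub (w * (A * Y - X * B)) (b1 * (A - X * T))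
    linarith
  have f6 : |(w * (A * Y - X * B) - b1 * (A - X * T)) / A| ≤ 1 / 20 * w := by
    rw [abs_div, abs_of_pos hApos, div_le_iff₀ hApos]
    have g1 : 1 / 20 * w * (13 / 20) ≤ 1 / 20 * w * A :=
      mul_le_mul_of_nonneg_left hA' (by linarith)
    linarith
  rw [hP]
  have f7 := pow_le_pow_left₀ (abs_nonneg _) f6 2
  rw [sq_abs] at f7
  have f8 : (1 / 20 * w) ^ 2 = 1 / 400 * w ^ 2 := by ring
  linarith

theorem key_real {T u a b η a1 b1 b2 η1 w w1 : ℝ} (hu : 0 < u) (hu1 : u ≤ 1)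
    (hT : T ^ 2 + u ^ 2 = 1) (ha : |a| ≤ 1 / 3) (hb : |b| ≤ 1 / 3)
    (hη : |η| ≤ 1 / 100) (hab : |a - b| ≤ 1 / 100) (ha1 : |a1| ≤ 1 / 20) (hb1 : |b1| ≤ 1 / 20)
    (hb2 : |b2| ≤ 1 / 20) (hη1 : |η1| ≤ 1 / 20) (hw : 20 ≤ w)
    (hw1 : 9 / 10 * w ^ 2 ≤ w ^ 2 + w1) (A B X Y Z : ℝ)
    (hA : A = 1 + η - a * T - η * u) (hB : B = 1 - b * T) (hX : X = (1 + η) * T - a)
    (hY : Y = T - b) (hZ : Z = -(a1 * T) + η1 * (1 - u)) :
    (w * Y - b1 - X / A * (w * B - b1 * T)) ^ 2 ≤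
      (99 / 100 * B) * ((w ^ 2 + w1) * B - 2 * w * b1 * T - b2 * T - Z / A * (w * B - b1 * T)
        + (A * X * Y / u ^ 2 - 1 / 100 * (B * A ^ 2 / u ^ 2))) := by
  have hT1 := T_bd hT
  obtain ⟨hA1, hA2⟩ := A_bd hu hu1 hT ha hη
  rw [← hA] at hA1 hA2
  obtain ⟨hB1, hB2⟩ := B_bd hT hb
  rw [← hB] at hB1 hB2
  have hP := P_bd hu hu1 hT hb hη hab hb1 hw hA1 hA hB hX hY
  have hXY := XY_bd hu hT ha hb hη hA1 hA2 hB1 hB2 hX hY
  have hZb : |Z| ≤ 1 / 10 := by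
    have h1u : |1 - u| ≤ 1 := by rw [abs_le]; constructor <;> linarith
    have h1 := absmul_le ha1 hT1
    have h2 := absmul_le hη1 h1u
    rw [hZ]
    have h3 := abs_add_le (-(a1 * T)) (η1 * (1 - u))
    rw [abs_neg] at h3
    linarith
  have hE := E_bd hT1 hb1 hb2 hw hw1 hA1 hB1 hB2 hZb hXY
  have hR := mul_le_mul (by linarith : (99 / 100 * (2 / 3) : ℝ) ≤ 99 / 100 * B) hE
    (by positivity) (by linarith)
  have hw2 : 0 ≤ w ^ 2 := sq_nonneg w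
  linarith

/-- lower bound of the gradient of `β` -/
theorem grad_bd {T u b b1 w A B Y : ℝ} (hu : 0 < u) (hT : T ^ 2 + u ^ 2 = 1)
    (hb : |b| ≤ 1 / 3) (hb1 : |b1| ≤ 1 / 20) (hw : 20 ≤ w)
    (hA : 13 / 20 ≤ A) (hA' : A ≤ 27 / 20) (hB : 2 / 3 ≤ B) (hB' : B ≤ 4 / 3)
    (hY : Y = T - b) :
    1 / 100 * B ^ 2 ≤ Y ^ 2 + (w * B - b1 * T) ^ 2 * u ^ 2 / A ^ 2 := by
  have hT1 := T_bd hT
  obtain ⟨hbl, hbu⟩ := abs_le.mp hb
  have hApos : 0 < A := by linarith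
  have hB2 : B ^ 2 ≤ (4 / 3) ^ 2 := pow_le_pow_left₀ (by linarith) hB' 2
  have hb1T := (abs_le.mp (absmul_le hb1 hT1))
  have hwB : 20 * (2 / 3) ≤ w * B := mul_le_mul hw hB (by norm_num) (by linarith)
  have h1 : 13 ≤ w * B - b1 * T := by linarith
  have h2 : (13 : ℝ) ^ 2 ≤ (w * B - b1 * T) ^ 2 := pow_le_pow_left₀ (by norm_num) h1 2
  have h3 : 0 ≤ (w * B - b1 * T) ^ 2 * u ^ 2 / A ^ 2 := by positivity
  by_cases h4 : 1 / 2 ≤ |T|
  · have h5 : 1 / 6 ≤ |Y| := by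
      rw [hY]
      have := abs_sub_abs_le_abs_sub T b
      linarith
    have h6 := pow_le_pow_left₀ (by norm_num) h5 2
    rw [sq_abs] at h6
    linarith
  · push Not at h4
    have hT2 : T ^ 2 ≤ (1 / 2) ^ 2 := by
      have := pow_le_pow_left₀ (abs_nonneg _) h4.le 2
      rwa [sq_abs] at this
    have hu2 : 3 / 4 ≤ u ^ 2 := by linarith
    have hA2 : A ^ 2 ≤ (27 / 20) ^ 2 := pow_le_pow_left₀ hApos.le hA' 2
    have h7 : (13 : ℝ) ^ 2 * (3 / 4) ≤ (w * B - b1 * T) ^ 2 * u ^ 2 :=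
      mul_le_mul h2 hu2 (by norm_num) (sq_nonneg _)
    have h8 : 1 ≤ (w * B - b1 * T) ^ 2 * u ^ 2 / A ^ 2 := by
      rw [le_div_iff₀ (by positivity)]
      linarith
    have h9 := sq_nonneg Y
    linarith

end Pool.Agent.Y671.BN
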