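import Pool.Agent.Y671.BN.Spec

/-!
Completeness, and the theorem for given one-variable data.
-/

set_option autoImplicit false

namespace Pool.Agent.Y671.BN

open scoped ContDiff Topology
open Pool.Agent.W555.RG
open Pool.Agent.Y671.BH (isComplete_of_slabs)

/-- the one-variable data of an example; `κ` is the dimension of the `y`-space of `M` -/
structure Dt (κ : ℝ) extends Sp where
  H : ℝ → ℝ
  H1 : ℝ → ℝ
  H2 : ℝ → ℝ
  dH : ∀ r, HasDerivAt H (H1 r) r
  dH1 : ∀ r, HasDerivAt H1 (H2 r) r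
  hab : ∀ r, a r + κ * b r = (κ + 1) * H r
  ode1 : ∀ r, H2 r + κ * (w r * H1 r) = H r * (a r ^ 2 + κ * b r ^ 2 + (1 + η r) + κ)
  ode2 : ∀ r, a1 r * H r + 2 * (a r * H1 r) =
    2 * (κ * ((b r - a r) * H r * w r)) + κ * (H r * b1 r)
  H_pos : ∀ r, 0 < H r

theorem Sp.exists_lower (S : Sp) (R : ℝ) : ∃ m : ℝ, 0 < m ∧ ∀ r, |r| ≤ R → m ≤ S.W r := by
  by_cases hR : 0 ≤ R
  · have hne : (Set.Icc (-R) R).Nonempty := ⟨0, by simp [hR]⟩
    obtain ⟨r0, -, h0⟩ := isCompact_Icc.exists_isMinOn hne S.sW.continuous.continuousOn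
    exact ⟨S.W r0, S.W_pos r0, fun r hr => h0 (abs_le.mp hr)⟩
  · push Not at hR
    exact ⟨1, one_pos, fun r hr => absurd ((abs_nonneg r).trans hr) (by linarith)⟩

section

variable {K : Type} [NormedAddCommGroup K] [InnerProductSpace ℝ K]
variable {F : Type} [NormedAddCommGroup F] [InnerProductSpace ℝ F]

omit [InnerProductSpace ℝ K] in
theorem norm_sq_NK (v : NK K) :
    ‖v‖ ^ 2 ≤ v.1 * v.1 + v.2.1 * v.2.1 + ‖v.2.2‖ ^ 2 := by
  have a1 := mul_self_nonneg v.1
  have a2 := mul_self_nonneg v.2.1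
  have a4 := sq_nonneg ‖v.2.2‖
  rw [Prod.norm_def, Prod.norm_def]
  rcases max_choice ‖v.1‖ (max ‖v.2.1‖ ‖v.2.2‖) with h | h
  · rw [h, Real.norm_eq_abs, sq_abs]; nlinarith
  · rw [h]
    rcases max_choice ‖v.2.1‖ ‖v.2.2‖ with h | h
    · rw [h, Real.norm_eq_abs, sq_abs]; nlinarith
    · rw [h]; linarith

omit [InnerProductSpace ℝ F] in
theorem norm_sq_MF (v : ℝ × F) :
    ‖v‖ ^ 2 ≤ v.1 * v.1 + ‖v.2‖ ^ 2 := by
  have a1 := mul_self_nonneg v.1
  have a4 := sq_nonneg ‖v.2‖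
  rw [Prod.norm_def]
  rcases max_choice ‖v.1‖ ‖v.2‖ with h | h
  · rw [h, Real.norm_eq_abs, sq_abs]; nlinarith
  · rw [h]; linarith

theorem sq_le_of_abs {x y : ℝ} (h : |x| ≤ y) : x * x ≤ y ^ 2 := by
  have := pow_le_pow_left₀ (abs_nonneg x) h 2
  rw [sq_abs] at this
  linarith

theorem Sp.complete_h [FiniteDimensional ℝ K] (S : Sp) : (S.toAB.h (K := K)).IsComplete := by
  have hαl : ∀ t r, 13 / 20 ≤ S.toAB.α t r := fun t r => by
    have h1 := S.α_lower t r
    have h2 := Real.one_le_cosh t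
    exact le_trans (by linarith) h1
  have hβl : ∀ t r, 2 / 3 * S.W r ≤ S.toAB.β t r := fun t r => by
    have h1 := Sp.cs_lower (t := t) (S.bb r)
    have h2 := Real.one_le_cosh t
    have h3 := S.W_pos r
    show 2 / 3 * S.W r ≤ S.W r * (Real.cosh t - S.b r * Real.sinh t)
    have h4 : 2 / 3 ≤ Real.cosh t - S.b r * Real.sinh t := by linarith
    have h5 := mul_le_mul_of_nonneg_left h4 h3.le
    linarith
  refine isComplete_of_slabs _ (dr K) (a := 13 / 20) (by norm_num) ?_ ?_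
    (fun x => 1 + S.toAB.α x.1 x.2.1 ^ 2 + S.toAB.β x.1 x.2.1 ^ 2) ?_ ?_ ?_
  · intro x v
    rw [AB.h_form, real_inner_self_eq_norm_sq, dr_apply]
    have h1 : (13 / 20 : ℝ) ^ 2 ≤ S.toAB.α x.1 x.2.1 ^ 2 :=
      pow_le_pow_left₀ (by norm_num) (hαl _ _) 2
    have h2 := mul_le_mul_of_nonneg_right h1 (mul_self_nonneg v.2.1)
    have h4 := mul_self_nonneg v.1
    have h5 : 0 ≤ S.toAB.β x.1 x.2.1 ^ 2 * ‖v.2.2‖ ^ 2 := by positivity
    have h6 : (13 / 20 : ℝ) ^ 2 * v.2.1 ^ 2 = (13 / 20) ^ 2 * (v.2.1 * v.2.1) := by ring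
    linarith
  · intro R
    obtain ⟨m, hm, hml⟩ := S.exists_lower R
    refine ⟨13 / 20 * min 1 m, by positivity, fun x hx v => ?_⟩
    have hmin : 0 < min 1 m := by positivity
    rw [dr_apply] at hx
    rw [AB.h_form, real_inner_self_eq_norm_sq]
    have hc1 : min 1 m ≤ 1 := min_le_left _ _
    have hc2 : min 1 m ≤ S.W x.2.1 := (min_le_right _ _).trans (hml _ hx)
    have hα1 : (13 / 20 * min 1 m) ^ 2 ≤ S.toAB.α x.1 x.2.1 ^ 2 :=
      pow_le_pow_left₀ (by positivity) (by linarith [hαl x.1 x.2.1]) 2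
    have hβ1 : (13 / 20 * min 1 m) ^ 2 ≤ S.toAB.β x.1 x.2.1 ^ 2 :=
      pow_le_pow_left₀ (by positivity) (by linarith [hβl x.1 x.2.1]) 2
    have h11 : (13 / 20 * min 1 m) ^ 2 ≤ 1 :=
      pow_le_one₀ (by positivity) (by linarith)
    have e1 := mul_le_mul_of_nonneg_left (norm_sq_NK v) (sq_nonneg (13 / 20 * min 1 m))
    have e2 := mul_le_mul_of_nonneg_right hα1 (mul_self_nonneg v.2.1)
    have e3 := mul_le_mul_of_nonneg_right hβ1 (sq_nonneg ‖v.2.2‖)
    have e4 := mul_le_mul_of_nonneg_right h11 (mul_self_nonneg v.1)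
    linarith
  · exact ((continuous_const.add (S.toAB.contDiff_α.continuous.pow 2)).add
      (S.toAB.contDiff_β.continuous.pow 2))
  · intro x v
    rw [AB.h_form, real_inner_self_eq_norm_sq]
    have b1 : |v.1| ≤ ‖v‖ := norm_fst_le v
    have b2 : |v.2.1| ≤ ‖v‖ := (norm_fst_le v.2).trans (norm_snd_le v)
    have b4 : ‖v.2.2‖ ≤ ‖v‖ := (norm_snd_le v.2).trans (norm_snd_le v)
    have c1 := sq_le_of_abs b1
    have c2 := mul_le_mul_of_nonneg_left (sq_le_of_abs b2) (sq_nonneg (S.toAB.α x.1 x.2.1))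
    have c4 := mul_le_mul_of_nonneg_left (pow_le_pow_left₀ (norm_nonneg _) b4 2)
      (sq_nonneg (S.toAB.β x.1 x.2.1))
    linarith
  · intro γ hγ
    have hd : Continuous (deriv γ) := hγ.continuous_deriv le_rfl
    have hc := hγ.continuous
    simp only [AB.h_form]
    have hα : Continuous fun s => S.toAB.α (γ s).1 (γ s).2.1 :=
      S.toAB.contDiff_α.continuous.comp hc
    have hβ : Continuous fun s => S.toAB.β (γ s).1 (γ s).2.1 :=
      S.toAB.contDiff_β.continuous.comp hc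
    have h1 : Continuous fun s => (deriv γ s).1 := continuous_fst.comp hd
    have h2 : Continuous fun s => (deriv γ s).2.1 := continuous_fst.comp (continuous_snd.comp hd)
    have h4 : Continuous fun s => (deriv γ s).2.2 :=
      continuous_snd.comp (continuous_snd.comp hd)
    exact ((h1.mul h1).add ((hα.pow 2).mul (h2.mul h2))).add ((hβ.pow 2).mul (h4.inner h4))

namespace Dt

variable {κ : ℝ} (T : Dt κ)

/-- the boundary data -/
noncomputable def toBd : Bd T.toSp.toAB κ where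
  W := T.W
  w := T.w
  a := T.a
  a1 := T.a1
  b := T.b
  b1 := T.b1
  q r := 1 + T.η r
  H := T.H
  H1 := T.H1
  H2 := T.H2
  dW := T.dW
  da := T.da
  db := T.db
  dH := T.dH
  dH1 := T.dH1
  sW := T.sW
  W_pos := T.W_pos
  α0 r := by simp [Sp.toAB]
  αt0 r := by simp [Sp.toAB]
  αr0 r := by simp [Sp.toAB]
  αtt0 r := by simp [Sp.toAB]
  αtr0 r := by simp [Sp.toAB]
  β0 r := by simp [Sp.toAB]
  βt0 r := by simp [Sp.toAB]
  βr0 r := by simp [Sp.toAB]
  βtt0 r := by simp [Sp.toAB]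
  βtr0 r := by simp [Sp.toAB]; ring
  hab := T.hab
  ode1 := T.ode1
  ode2 := T.ode2

theorem complete_g [FiniteDimensional ℝ F] : (T.toBd.g (F := F)).IsComplete := by
  have hW : T.toBd.W = T.W := rfl
  refine isComplete_of_slabs _ (ContinuousLinearMap.fst ℝ ℝ F) (a := 1) one_pos ?_ ?_
    (fun x => 1 + T.W x.1 ^ 2) ?_ ?_ ?_
  · intro x v
    rw [Bd.g_form, real_inner_self_eq_norm_sq, hW]
    have h3 : 0 ≤ T.W x.1 ^ 2 * ‖v.2‖ ^ 2 := by positivity
    simp only [ContinuousLinearMap.coe_fst']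
    linarith
  · intro R
    obtain ⟨m, hm, hml⟩ := T.toSp.exists_lower R
    refine ⟨min 1 m, by positivity, fun x hx v => ?_⟩
    have hmin : 0 < min 1 m := by positivity
    simp only [ContinuousLinearMap.coe_fst'] at hx
    rw [Bd.g_form, real_inner_self_eq_norm_sq, hW]
    have hc1 : min 1 m ≤ 1 := min_le_left _ _
    have hc2 : min 1 m ≤ T.W x.1 := (min_le_right _ _).trans (hml _ hx)
    have hβ1 : (min 1 m) ^ 2 ≤ T.W x.1 ^ 2 := pow_le_pow_left₀ hmin.le hc2 2
    have h11 : (min 1 m) ^ 2 ≤ 1 := pow_le_one₀ hmin.le hc1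
    have e1 := mul_le_mul_of_nonneg_left (norm_sq_MF v) (sq_nonneg (min 1 m))
    have e3 := mul_le_mul_of_nonneg_right hβ1 (sq_nonneg ‖v.2‖)
    have e4 := mul_le_mul_of_nonneg_right h11 (mul_self_nonneg v.1)
    linarith
  · exact continuous_const.add ((T.sW.continuous.comp continuous_fst).pow 2)
  · intro x v
    rw [Bd.g_form, real_inner_self_eq_norm_sq, hW]
    have b1 : |v.1| ≤ ‖v‖ := norm_fst_le v
    have b4 : ‖v.2‖ ≤ ‖v‖ := norm_snd_le v
    have c1 := sq_le_of_abs b1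
    have c2 := mul_le_mul_of_nonneg_left (pow_le_pow_left₀ (norm_nonneg _) b4 2)
      (sq_nonneg (T.W x.1))
    linarith
  · intro γ hγ
    have hd : Continuous (deriv γ) := hγ.continuous_deriv le_rfl
    have hc := hγ.continuous
    simp only [Bd.g_form, hW]
    have hWc : Continuous fun s => T.W (γ s).1 := T.sW.continuous.comp (continuous_fst.comp hc)
    have h1 : Continuous fun s => (deriv γ s).1 := continuous_fst.comp hd
    have h4 : Continuous fun s => (deriv γ s).2 := continuous_snd.comp hd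
    exact (h1.mul h1).add ((hWc.pow 2).mul (h4.inner h4))

theorem closedEmbedding [FiniteDimensional ℝ F] (j : F →ₗᵢ[ℝ] K) :
    Topology.IsClosedEmbedding (Bd.φ j) := by
  have hj : Topology.IsClosedEmbedding j := j.isometry.isClosedEmbedding
  have h1 : Topology.IsClosedEmbedding (fun y : MF F => (y.1, j y.2)) :=
    Topology.IsClosedEmbedding.id.prodMap hj
  have h2 : Topology.IsClosedEmbedding (fun z : ℝ × K => ((0 : ℝ), z)) := by
    refine ⟨isEmbedding_prodMkRight (0 : ℝ), ?_⟩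
    have : Set.range (fun z : ℝ × K => ((0 : ℝ), z)) = {x : NK K | x.1 = 0} := by
      ext x
      constructor
      · rintro ⟨y, rfl⟩; rfl
      · intro hx
        exact ⟨x.2, Prod.ext (Eq.symm hx) rfl⟩
    rw [this]
    exact isClosed_eq continuous_fst continuous_const
  exact h2.comp h1

include T in
/-- The example. -/
theorem example_of [FiniteDimensional ℝ K] [FiniteDimensional ℝ F]
    (hκ : κ = (Module.finrank ℝ F : ℝ)) (j : F →ₗᵢ[ℝ] K) :
    ∃ (h : RMetric (NK K)) (g : RMetric (MF F)) (φ : MF F → NK K),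
      (∀ x u v, h.form x (h.curv x u v v) u ≤
        -(1 / 100 * (h.form x u u * h.form x v v - h.form x u v ^ 2))) ∧
      h.Nonpos ∧ h.IsComplete ∧ g.IsComplete ∧ IsIsometricImmersion g h φ ∧
      Topology.IsClosedEmbedding φ ∧ (∀ x, bitension g h φ x = 0) ∧
      (∀ x, tension g h φ x ≠ 0) := by
  refine ⟨T.toSp.toAB.h, T.toBd.g, Bd.φ j, T.toSp.toAB_curv_le, T.toSp.toAB_nonpos,
    T.toSp.complete_h, T.complete_g,
    T.toBd.isometric j, closedEmbedding j, T.toBd.bitension_φ j hκ, fun x => ?_⟩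
  rw [T.toBd.tension_φ j hκ]
  intro h
  have h1 : (κ + 1) * T.H x.1 = 0 := congrArg Prod.fst h
  have h2 := T.H_pos x.1
  have h3 : 0 ≤ κ := by rw [hκ]; positivity
  have : 0 < (κ + 1) * T.H x.1 := by positivity
  linarith

end Dt

end

end Pool.Agent.Y671.BN
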