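import Pool.Agent.Y671.BH.Complete

/-!
The metrics `dt² + α(t, r)² dr² + β(t, r)² |dy|²` on `ℝ × ℝ × K`: Christoffel symbols and
curvature.
-/

set_option autoImplicit false

namespace Pool.Agent.Y671.BN

open scoped ContDiff Topology
open Pool.Agent.W555.RG

section

variable (K : Type) [NormedAddCommGroup K] [InnerProductSpace ℝ K]

/-- the vector space with coordinates `(t, r, y)` -/
abbrev NK : Type := ℝ × ℝ × K

noncomputable def dt : NK K →L[ℝ] ℝ := ContinuousLinearMap.fst ℝ ℝ (ℝ × K)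
noncomputable def dr : NK K →L[ℝ] ℝ :=
  (ContinuousLinearMap.fst ℝ ℝ K).comp (ContinuousLinearMap.snd ℝ ℝ (ℝ × K))

@[simp] theorem dt_apply (X : NK K) : dt K X = X.1 := rfl
@[simp] theorem dr_apply (X : NK K) : dr K X = X.2.1 := rfl

end

variable {K : Type} [NormedAddCommGroup K] [InnerProductSpace ℝ K]

/-- derivative of a function of `(t, r)` -/
def HD (F : NK K → ℝ) (a b : ℝ) (x : NK K) : Prop := HasFDerivAt F (a • dt K + b • dr K) x

namespace HD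

variable {F G : NK K → ℝ} {a b c d : ℝ} {x : NK K}

theorem congr (h : HD F a b x) (h1 : a = c) (h2 : b = d) : HD F c d x := by
  subst h1; subst h2; exact h

theorem const (k : ℝ) : HD (fun _ : NK K => k) 0 0 x := by
  unfold HD; simpa using hasFDerivAt_const k x

theorem add (h : HD F a b x) (h' : HD G c d x) :
    HD (fun y => F y + G y) (a + c) (b + d) x := by
  unfold HD at *
  refine (HasFDerivAt.add h h').congr_fderiv ?_
  module

theorem sub (h : HD F a b x) (h' : HD G c d x) :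
    HD (fun y => F y - G y) (a - c) (b - d) x := by
  unfold HD at *
  refine (HasFDerivAt.sub h h').congr_fderiv ?_
  module

theorem neg (h : HD F a b x) : HD (fun y => -F y) (-a) (-b) x := by
  unfold HD at *
  refine (HasFDerivAt.neg h).congr_fderiv ?_
  module

theorem mul (h : HD F a b x) (h' : HD G c d x) :
    HD (fun y => F y * G y) (a * G x + F x * c) (b * G x + F x * d) x := by
  unfold HD at *
  refine (HasFDerivAt.mul h h').congr_fderiv ?_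
  module

theorem inv (h : HD F a b x) (hne : F x ≠ 0) :
    HD (fun y => (F y)⁻¹) (-a / F x ^ 2) (-b / F x ^ 2) x := by
  unfold HD at *
  refine ((hasDerivAt_inv hne).comp_hasFDerivAt x h).congr_fderiv ?_
  rw [smul_add, smul_smul, smul_smul]
  congr 2 <;> ring

theorem div (h : HD F a b x) (h' : HD G c d x) (hne : G x ≠ 0) :
    HD (fun y => F y / G y) (a / G x - F x * c / G x ^ 2) (b / G x - F x * d / G x ^ 2) x := by
  have := h.mul (h'.inv hne)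
  simp only [← div_eq_mul_inv] at this
  refine this.congr ?_ ?_ <;> ring

theorem of2 {k : ℝ → ℝ → ℝ} {k1 k2 : ℝ}
    (h : HasFDerivAt (fun p : ℝ × ℝ => k p.1 p.2)
      (k1 • ContinuousLinearMap.fst ℝ ℝ ℝ + k2 • ContinuousLinearMap.snd ℝ ℝ ℝ) (x.1, x.2.1)) :
    HD (fun y => k y.1 y.2.1) k1 k2 x := by
  unfold HD
  have h1 : HasFDerivAt (fun y : NK K => (y.1, y.2.1)) ((dt K).prod (dr K)) x :=
    ((dt K).prod (dr K)).hasFDerivAt
  have h2 := h.comp x h1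
  refine h2.congr_fderiv ?_
  ext y <;> simp

theorem fderiv_eq (h : HD F a b x) (X : NK K) : fderiv ℝ F x X = a * X.1 + b * X.2.1 := by
  unfold HD at h
  rw [h.fderiv]
  simp

end HD

/-- a function of two variables with prescribed partial derivatives -/
def PD (k k1 k2 : ℝ → ℝ → ℝ) : Prop :=
  ∀ t r : ℝ, HasFDerivAt (fun p : ℝ × ℝ => k p.1 p.2)
      (k1 t r • ContinuousLinearMap.fst ℝ ℝ ℝ + k2 t r • ContinuousLinearMap.snd ℝ ℝ ℝ) (t, r)

/-- The coefficients of the metric `dt² + α² dr² + β² |dy|²`. -/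
structure AB where
  α : ℝ → ℝ → ℝ
  αt : ℝ → ℝ → ℝ
  αr : ℝ → ℝ → ℝ
  αtt : ℝ → ℝ → ℝ
  αtr : ℝ → ℝ → ℝ
  αrr : ℝ → ℝ → ℝ
  β : ℝ → ℝ → ℝ
  βt : ℝ → ℝ → ℝ
  βr : ℝ → ℝ → ℝ
  βtt : ℝ → ℝ → ℝ
  βtr : ℝ → ℝ → ℝ
  βrr : ℝ → ℝ → ℝ
  dα : PD α αt αr
  dαt : PD αt αtt αtr
  dαr : PD αr αtr αrr
  dβ : PD β βt βr
  dβt : PD βt βtt βtr
  dβr : PD βr βtr βrr
  sα : ContDiff ℝ ∞ (fun p : ℝ × ℝ => α p.1 p.2)
  sβ : ContDiff ℝ ∞ (fun p : ℝ × ℝ => β p.1 p.2)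
  α_pos : ∀ t r, 0 < α t r
  β_pos : ∀ t r, 0 < β t r

namespace AB

variable (D : AB)

/-- the metric form on `NK K` -/
noncomputable def hform (x : NK K) : LinearMap.BilinForm ℝ (NK K) :=
  LinearMap.mk₂ ℝ (fun U V => U.1 * V.1 + D.α x.1 x.2.1 ^ 2 * (U.2.1 * V.2.1)
      + D.β x.1 x.2.1 ^ 2 * inner ℝ U.2.2 V.2.2)
    (fun U U' V => by simp only [Prod.fst_add, Prod.snd_add, inner_add_left]; ring)
    (fun k U V => by simp only [Prod.smul_fst, Prod.smul_snd, real_inner_smul_left, smul_eq_mul]; ring)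
    (fun U V V' => by simp only [Prod.fst_add, Prod.snd_add, inner_add_right]; ring)
    (fun k U V => by simp only [Prod.smul_fst, Prod.smul_snd, real_inner_smul_right, smul_eq_mul]; ring)

theorem hform_apply (x U V : NK K) : D.hform x U V = U.1 * V.1 + D.α x.1 x.2.1 ^ 2 * (U.2.1 * V.2.1)
      + D.β x.1 x.2.1 ^ 2 * inner ℝ U.2.2 V.2.2 := rfl

theorem contDiff_α : ContDiff ℝ ∞ (fun x : NK K => D.α x.1 x.2.1) :=
  D.sα.comp (f := fun x : NK K => (x.1, x.2.1)) (by fun_prop)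

theorem contDiff_β : ContDiff ℝ ∞ (fun x : NK K => D.β x.1 x.2.1) :=
  D.sβ.comp (f := fun x : NK K => (x.1, x.2.1)) (by fun_prop)

/-- the Riemannian metric `dt² + α² dr² + β² |dy|²` -/
noncomputable def h : RMetric (NK K) where
  form := D.hform
  symm' x U V := by rw [hform_apply, hform_apply, real_inner_comm]; ring
  pos' x U hU := by
    rw [hform_apply, real_inner_self_eq_norm_sq]
    have hα := D.α_pos x.1 x.2.1
    have hβ := D.β_pos x.1 x.2.1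
    have a1 : 0 ≤ U.1 * U.1 := mul_self_nonneg _
    have a2 : 0 ≤ D.α x.1 x.2.1 ^ 2 * (U.2.1 * U.2.1) := mul_nonneg (by positivity) (mul_self_nonneg _)
    have a4 : 0 ≤ D.β x.1 x.2.1 ^ 2 * ‖U.2.2‖ ^ 2 := by positivity
    by_cases h1 : U.1 = 0
    · by_cases h2 : U.2.1 = 0
      · have h4 : U.2.2 ≠ 0 := fun h4 => hU (Prod.ext h1 (Prod.ext h2 h4))
        have : 0 < ‖U.2.2‖ := norm_pos_iff.mpr h4
        have : 0 < D.β x.1 x.2.1 ^ 2 * ‖U.2.2‖ ^ 2 := by positivity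
        linarith
      · have : 0 < U.2.1 * U.2.1 := mul_self_pos.mpr h2
        have : 0 < D.α x.1 x.2.1 ^ 2 * (U.2.1 * U.2.1) := by positivity
        linarith
    · have : 0 < U.1 * U.1 := mul_self_pos.mpr h1
      linarith
  smooth' U V := by
    simp only [hform_apply]
    exact (contDiff_const.add ((D.contDiff_α.pow 2).mul contDiff_const)).add
      ((D.contDiff_β.pow 2).mul contDiff_const)

theorem h_form (x U V : NK K) : D.h.form x U V = U.1 * V.1 + D.α x.1 x.2.1 ^ 2 * (U.2.1 * V.2.1)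
      + D.β x.1 x.2.1 ^ 2 * inner ℝ U.2.2 V.2.2 := rfl

variable (x : NK K)

theorem hd_α : HD (fun x : NK K => D.α x.1 x.2.1) (D.αt x.1 x.2.1) (D.αr x.1 x.2.1) x :=
  HD.of2 (D.dα _ _)
theorem hd_αt : HD (fun x : NK K => D.αt x.1 x.2.1) (D.αtt x.1 x.2.1) (D.αtr x.1 x.2.1) x :=
  HD.of2 (D.dαt _ _)
theorem hd_αr : HD (fun x : NK K => D.αr x.1 x.2.1) (D.αtr x.1 x.2.1) (D.αrr x.1 x.2.1) x :=
  HD.of2 (D.dαr _ _)
theorem hd_β : HD (fun x : NK K => D.β x.1 x.2.1) (D.βt x.1 x.2.1) (D.βr x.1 x.2.1) x :=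
  HD.of2 (D.dβ _ _)
theorem hd_βt : HD (fun x : NK K => D.βt x.1 x.2.1) (D.βtt x.1 x.2.1) (D.βtr x.1 x.2.1) x :=
  HD.of2 (D.dβt _ _)
theorem hd_βr : HD (fun x : NK K => D.βr x.1 x.2.1) (D.βtr x.1 x.2.1) (D.βrr x.1 x.2.1) x :=
  HD.of2 (D.dβr _ _)

theorem fderiv_h (x U V X : NK K) : fderiv ℝ (fun z => D.h.form z U V) x X =
    2 * D.α x.1 x.2.1 * (D.αt x.1 x.2.1 * X.1 + D.αr x.1 x.2.1 * X.2.1) * (U.2.1 * V.2.1)
      + 2 * D.β x.1 x.2.1 * (D.βt x.1 x.2.1 * X.1 + D.βr x.1 x.2.1 * X.2.1)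
        * inner ℝ U.2.2 V.2.2 := by
  simp only [h_form]
  have h1 : HD (fun z : NK K => U.1 * V.1 + (D.α z.1 z.2.1 * D.α z.1 z.2.1) * (U.2.1 * V.2.1)
      + (D.β z.1 z.2.1 * D.β z.1 z.2.1) * inner ℝ U.2.2 V.2.2) _ _ x :=
    ((HD.const _).add (((D.hd_α x).mul (D.hd_α x)).mul (HD.const _))).add
      (((D.hd_β x).mul (D.hd_β x)).mul (HD.const _))
  simp only [← pow_two] at h1
  rw [h1.fderiv_eq]
  ring

theorem Gam_h (x U V : NK K) : D.h.Gam x U V =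
    (-(D.α x.1 x.2.1 * D.αt x.1 x.2.1 * (U.2.1 * V.2.1)
        + D.β x.1 x.2.1 * D.βt x.1 x.2.1 * inner ℝ U.2.2 V.2.2),
      D.αt x.1 x.2.1 / D.α x.1 x.2.1 * (U.1 * V.2.1 + U.2.1 * V.1)
        + D.αr x.1 x.2.1 / D.α x.1 x.2.1 * (U.2.1 * V.2.1)
        - D.β x.1 x.2.1 * D.βr x.1 x.2.1 / (D.α x.1 x.2.1 * D.α x.1 x.2.1) * inner ℝ U.2.2 V.2.2,
      (D.βt x.1 x.2.1 / D.β x.1 x.2.1 * U.1 + D.βr x.1 x.2.1 / D.β x.1 x.2.1 * U.2.1) • V.2.2
        + (D.βt x.1 x.2.1 / D.β x.1 x.2.1 * V.1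
          + D.βr x.1 x.2.1 / D.β x.1 x.2.1 * V.2.1) • U.2.2) := by
  apply RMetric.Gam_eq
  intro w
  have hα := (D.α_pos x.1 x.2.1).ne'
  have hβ := (D.β_pos x.1 x.2.1).ne'
  rw [fderiv_h, fderiv_h, fderiv_h, h_form]
  simp only [inner_add_left, real_inner_smul_left]
  generalize D.α x.1 x.2.1 = α at *
  generalize D.αt x.1 x.2.1 = αt at *
  generalize D.αr x.1 x.2.1 = αr at *
  generalize D.β x.1 x.2.1 = β at *
  generalize D.βt x.1 x.2.1 = βt at *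
  generalize D.βr x.1 x.2.1 = βr at *
  generalize (inner ℝ U.2.2 V.2.2 : ℝ) = k1
  generalize (inner ℝ V.2.2 w.2.2 : ℝ) = k2
  generalize (inner ℝ U.2.2 w.2.2 : ℝ) = k3
  field_simp
  ring

/-- derivative of `βt / β` in direction `X` -/
noncomputable def dp (x X : NK K) : ℝ :=
  (D.βtt x.1 x.2.1 / D.β x.1 x.2.1 - D.βt x.1 x.2.1 ^ 2 / D.β x.1 x.2.1 ^ 2) * X.1
    + (D.βtr x.1 x.2.1 / D.β x.1 x.2.1
      - D.βt x.1 x.2.1 * D.βr x.1 x.2.1 / D.β x.1 x.2.1 ^ 2) * X.2.1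

/-- derivative of `βr / β` in direction `X` -/
noncomputable def dq (x X : NK K) : ℝ :=
  (D.βtr x.1 x.2.1 / D.β x.1 x.2.1
      - D.βt x.1 x.2.1 * D.βr x.1 x.2.1 / D.β x.1 x.2.1 ^ 2) * X.1
    + (D.βrr x.1 x.2.1 / D.β x.1 x.2.1 - D.βr x.1 x.2.1 ^ 2 / D.β x.1 x.2.1 ^ 2) * X.2.1

/-- derivative of the Christoffel map -/
theorem fderiv_Gam (x U V X : NK K) : fderiv ℝ (fun y => D.h.Gam y U V) x X =
    (-(((D.αt x.1 x.2.1 ^ 2 + D.α x.1 x.2.1 * D.αtt x.1 x.2.1) * X.1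
          + (D.αr x.1 x.2.1 * D.αt x.1 x.2.1 + D.α x.1 x.2.1 * D.αtr x.1 x.2.1) * X.2.1)
            * (U.2.1 * V.2.1)
        + ((D.βt x.1 x.2.1 ^ 2 + D.β x.1 x.2.1 * D.βtt x.1 x.2.1) * X.1
          + (D.βr x.1 x.2.1 * D.βt x.1 x.2.1 + D.β x.1 x.2.1 * D.βtr x.1 x.2.1) * X.2.1)
            * inner ℝ U.2.2 V.2.2),
      ((D.αtt x.1 x.2.1 / D.α x.1 x.2.1 - D.αt x.1 x.2.1 ^ 2 / D.α x.1 x.2.1 ^ 2) * X.1
          + (D.αtr x.1 x.2.1 / D.α x.1 x.2.1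
            - D.αt x.1 x.2.1 * D.αr x.1 x.2.1 / D.α x.1 x.2.1 ^ 2) * X.2.1)
          * (U.1 * V.2.1 + U.2.1 * V.1)
        + ((D.αtr x.1 x.2.1 / D.α x.1 x.2.1
            - D.αr x.1 x.2.1 * D.αt x.1 x.2.1 / D.α x.1 x.2.1 ^ 2) * X.1
          + (D.αrr x.1 x.2.1 / D.α x.1 x.2.1
            - D.αr x.1 x.2.1 ^ 2 / D.α x.1 x.2.1 ^ 2) * X.2.1) * (U.2.1 * V.2.1)
        - (((D.βt x.1 x.2.1 * D.βr x.1 x.2.1 + D.β x.1 x.2.1 * D.βtr x.1 x.2.1)
              / D.α x.1 x.2.1 ^ 2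
            - 2 * D.β x.1 x.2.1 * D.βr x.1 x.2.1 * D.αt x.1 x.2.1 / D.α x.1 x.2.1 ^ 3) * X.1
          + ((D.βr x.1 x.2.1 ^ 2 + D.β x.1 x.2.1 * D.βrr x.1 x.2.1) / D.α x.1 x.2.1 ^ 2
            - 2 * D.β x.1 x.2.1 * D.βr x.1 x.2.1 * D.αr x.1 x.2.1 / D.α x.1 x.2.1 ^ 3) * X.2.1)
          * inner ℝ U.2.2 V.2.2,
      (D.dp x X * U.1 + D.dq x X * U.2.1) • V.2.2
        + (D.dp x X * V.1 + D.dq x X * V.2.1) • U.2.2) := by
  simp only [Gam_h]
  have hα := (D.α_pos x.1 x.2.1).ne'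
  have hβ := (D.β_pos x.1 x.2.1).ne'
  have hα2 : D.α x.1 x.2.1 * D.α x.1 x.2.1 ≠ 0 := mul_ne_zero hα hα
  have h1 := ((((D.hd_α x).mul (D.hd_αt x)).mul (HD.const (U.2.1 * V.2.1))).add
    (((D.hd_β x).mul (D.hd_βt x)).mul (HD.const (inner ℝ U.2.2 V.2.2)))).neg
  have h2 := ((((D.hd_αt x).div (D.hd_α x) hα).mul (HD.const (U.1 * V.2.1 + U.2.1 * V.1))).add
    (((D.hd_αr x).div (D.hd_α x) hα).mul (HD.const (U.2.1 * V.2.1)))).sub
    ((((D.hd_β x).mul (D.hd_βr x)).div ((D.hd_α x).mul (D.hd_α x)) hα2).mul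
      (HD.const (inner ℝ U.2.2 V.2.2)))
  have h3 := (((D.hd_βt x).div (D.hd_β x) hβ).mul (HD.const U.1)).add
    (((D.hd_βr x).div (D.hd_β x) hβ).mul (HD.const U.2.1))
  have h4 := (((D.hd_βt x).div (D.hd_β x) hβ).mul (HD.const V.1)).add
    (((D.hd_βr x).div (D.hd_β x) hβ).mul (HD.const V.2.1))
  unfold HD at h1 h2 h3 h4
  have h5 := (h3.smul_const V.2.2).add (h4.smul_const U.2.2)
  have h6 := h1.prodMk (h2.prodMk h5)
  have h7 := h6.fderiv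
  simp only [Pi.add_def] at h7
  rw [h7]
  unfold dp dq
  generalize D.α x.1 x.2.1 = α at *
  generalize D.αt x.1 x.2.1 = αt at *
  generalize D.αr x.1 x.2.1 = αr at *
  generalize D.αtt x.1 x.2.1 = αtt at *
  generalize D.αtr x.1 x.2.1 = αtr at *
  generalize D.αrr x.1 x.2.1 = αrr at *
  generalize D.β x.1 x.2.1 = β at *
  generalize D.βt x.1 x.2.1 = βt at *
  generalize D.βr x.1 x.2.1 = βr at *
  generalize D.βtt x.1 x.2.1 = βtt at *
  generalize D.βtr x.1 x.2.1 = βtr at *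
  generalize D.βrr x.1 x.2.1 = βrr at *
  refine Prod.ext ?_ (Prod.ext ?_ ?_)
  · simp
    ring
  · simp
    field_simp
    ring
  · simp
    congr 2
    · field_simp
      ring
    · field_simp
      ring

/-- The curvature form, computed. -/
theorem curv_form (x U V : NK K) :
    D.h.form x (D.h.curv x U V V) U =
      -(D.α x.1 x.2.1 * D.αtt x.1 x.2.1 * (U.1 * V.2.1 - U.2.1 * V.1) ^ 2)
      - D.β x.1 x.2.1 *
        (D.βtt x.1 x.2.1 * (V.1 ^ 2 * inner ℝ U.2.2 U.2.2 - 2 * V.1 * U.1 * inner ℝ U.2.2 V.2.2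
            + U.1 ^ 2 * inner ℝ V.2.2 V.2.2)
          + 2 * (D.βtr x.1 x.2.1 - D.αt x.1 x.2.1 / D.α x.1 x.2.1 * D.βr x.1 x.2.1)
            * (V.1 * V.2.1 * inner ℝ U.2.2 U.2.2
              - (V.1 * U.2.1 + U.1 * V.2.1) * inner ℝ U.2.2 V.2.2
              + U.1 * U.2.1 * inner ℝ V.2.2 V.2.2)
          + (D.βrr x.1 x.2.1 - D.αr x.1 x.2.1 / D.α x.1 x.2.1 * D.βr x.1 x.2.1
              + D.α x.1 x.2.1 * D.αt x.1 x.2.1 * D.βt x.1 x.2.1)
            * (V.2.1 ^ 2 * inner ℝ U.2.2 U.2.2 - 2 * V.2.1 * U.2.1 * inner ℝ U.2.2 V.2.2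
              + U.2.1 ^ 2 * inner ℝ V.2.2 V.2.2))
      - D.β x.1 x.2.1 ^ 2 * (D.βt x.1 x.2.1 ^ 2
          + D.βr x.1 x.2.1 ^ 2 / D.α x.1 x.2.1 ^ 2) *
        (inner ℝ U.2.2 U.2.2 * inner ℝ V.2.2 V.2.2 - inner ℝ U.2.2 V.2.2 ^ 2) := by
  have hα := (D.α_pos x.1 x.2.1).ne'
  have hβ := (D.β_pos x.1 x.2.1).ne'
  unfold RMetric.curv
  rw [fderiv_Gam, fderiv_Gam]
  simp only [Gam_h, h_form]
  unfold dp dq
  simp only [Prod.fst_add, Prod.snd_add, Prod.fst_sub, Prod.snd_sub, inner_add_left,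
    inner_add_right, inner_sub_left, real_inner_smul_left, real_inner_smul_right]
  rw [real_inner_comm U.2.2 V.2.2]
  generalize (inner ℝ U.2.2 V.2.2 : ℝ) = k
  generalize (inner ℝ U.2.2 U.2.2 : ℝ) = kU
  generalize (inner ℝ V.2.2 V.2.2 : ℝ) = kV
  generalize D.α x.1 x.2.1 = α at *
  generalize D.αt x.1 x.2.1 = αt at *
  generalize D.αr x.1 x.2.1 = αr at *
  generalize D.αtt x.1 x.2.1 = αtt at *
  generalize D.αtr x.1 x.2.1 = αtr at *
  generalize D.αrr x.1 x.2.1 = αrr at *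
  generalize D.β x.1 x.2.1 = β at *
  generalize D.βt x.1 x.2.1 = βt at *
  generalize D.βr x.1 x.2.1 = βr at *
  generalize D.βtt x.1 x.2.1 = βtt at *
  generalize D.βtr x.1 x.2.1 = βtr at *
  generalize D.βrr x.1 x.2.1 = βrr at *
  generalize U.1 = u1
  generalize U.2.1 = u2
  generalize V.1 = v1
  generalize V.2.1 = v2
  field_simp
  ring

/-- Upper curvature bound `-c` from the convexity of `β`. -/
theorem curv_le {c : ℝ} (h1 : ∀ t r, c * D.α t r ≤ D.αtt t r)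
    (h2 : ∀ t r, 0 < D.βtt t r - c * D.β t r)
    (h3 : ∀ t r, (D.βtr t r - D.αt t r / D.α t r * D.βr t r) ^ 2 ≤
      (D.βtt t r - c * D.β t r) * (D.βrr t r - D.αr t r / D.α t r * D.βr t r
        + D.α t r * D.αt t r * D.βt t r - c * (D.β t r * D.α t r ^ 2)))
    (h4 : ∀ t r, c * D.β t r ^ 2 ≤ D.βt t r ^ 2 + D.βr t r ^ 2 / D.α t r ^ 2) (x U V : NK K) :
    D.h.form x (D.h.curv x U V V) U ≤
      -(c * (D.h.form x U U * D.h.form x V V - D.h.form x U V ^ 2)) := by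
  rw [curv_form, h_form, h_form, h_form]
  have hα := D.α_pos x.1 x.2.1
  have hβ := D.β_pos x.1 x.2.1
  have h1' := h1 x.1 x.2.1
  have h2' := h2 x.1 x.2.1
  have h3' := h3 x.1 x.2.1
  have h4' := h4 x.1 x.2.1
  have hCS : 0 ≤ inner ℝ U.2.2 U.2.2 * inner ℝ V.2.2 V.2.2 - (inner ℝ U.2.2 V.2.2 : ℝ) ^ 2 := by
    have := real_inner_mul_inner_self_le U.2.2 V.2.2
    nlinarith
  -- the vectors `X = U₁ V_y - V₁ U_y`, `Y = U₂ V_y - V₂ U_y`
  have hXY : ∀ a b : ℝ, 0 ≤ inner ℝ (a • (U.1 • V.2.2 - V.1 • U.2.2)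
      + b • (U.2.1 • V.2.2 - V.2.1 • U.2.2))
      (a • (U.1 • V.2.2 - V.1 • U.2.2) + b • (U.2.1 • V.2.2 - V.2.1 • U.2.2)) :=
    fun a b => real_inner_self_nonneg
  simp only [inner_add_left, inner_add_right, inner_sub_left, inner_sub_right,
    real_inner_smul_left, real_inner_smul_right] at hXY
  rw [real_inner_comm U.2.2 V.2.2] at hXY
  generalize (inner ℝ U.2.2 V.2.2 : ℝ) = k at *
  generalize (inner ℝ U.2.2 U.2.2 : ℝ) = kU at *
  generalize (inner ℝ V.2.2 V.2.2 : ℝ) = kV at *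
  set B := D.βtr x.1 x.2.1 - D.αt x.1 x.2.1 / D.α x.1 x.2.1 * D.βr x.1 x.2.1 with hB
  set C := D.βrr x.1 x.2.1 - D.αr x.1 x.2.1 / D.α x.1 x.2.1 * D.βr x.1 x.2.1
              + D.α x.1 x.2.1 * D.αt x.1 x.2.1 * D.βt x.1 x.2.1 with hC
  set G := D.βt x.1 x.2.1 ^ 2 + D.βr x.1 x.2.1 ^ 2 / D.α x.1 x.2.1 ^ 2 with hG
  generalize D.α x.1 x.2.1 = α at *
  generalize D.αtt x.1 x.2.1 = αtt at *
  generalize D.β x.1 x.2.1 = β at *
  generalize D.βtt x.1 x.2.1 = βtt at *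
  generalize U.1 = u1 at *
  generalize U.2.1 = u2 at *
  generalize V.1 = v1 at *
  generalize V.2.1 = v2 at *
  set XX := v1 ^ 2 * kU - 2 * v1 * u1 * k + u1 ^ 2 * kV with hXX
  set XYv := v1 * v2 * kU - (v1 * u2 + u1 * v2) * k + u1 * u2 * kV with hXYv
  set YY := v2 ^ 2 * kU - 2 * v2 * u2 * k + u2 ^ 2 * kV with hYY
  have hform : ∀ a b : ℝ, 0 ≤ a ^ 2 * XX + 2 * (a * b) * XYv + b ^ 2 * YY := by
    intro a b
    have := hXY a b
    rw [hXX, hXYv, hYY]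
    linarith
  have hYY0 : 0 ≤ YY := by simpa using hform 0 1
  have hq : 0 ≤ (βtt - c * β) * XX + 2 * B * XYv + (C - c * (β * α ^ 2)) * YY := by
    have h5 := hform (βtt - c * β) B
    have h6 : 0 ≤ ((βtt - c * β) * (C - c * (β * α ^ 2)) - B ^ 2) * YY :=
      mul_nonneg (by linarith) hYY0
    have h7 : 0 ≤ (βtt - c * β) * ((βtt - c * β) * XX + 2 * B * XYv
        + (C - c * (β * α ^ 2)) * YY) := by
      have : (βtt - c * β) * ((βtt - c * β) * XX + 2 * B * XYv + (C - c * (β * α ^ 2)) * YY) =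
        ((βtt - c * β) ^ 2 * XX + 2 * ((βtt - c * β) * B) * XYv + B ^ 2 * YY)
          + ((βtt - c * β) * (C - c * (β * α ^ 2)) - B ^ 2) * YY := by ring
      rw [this]
      linarith
    exact nonneg_of_mul_nonneg_right h7 h2'
  have t1 : 0 ≤ α * (αtt - c * α) * (u1 * v2 - u2 * v1) ^ 2 :=
    mul_nonneg (mul_nonneg hα.le (by linarith)) (sq_nonneg _)
  have t2 : 0 ≤ β * ((βtt - c * β) * XX + 2 * B * XYv + (C - c * (β * α ^ 2)) * YY) :=
    mul_nonneg hβ.le hq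
  have t3 : 0 ≤ β ^ 2 * (G - c * β ^ 2) * (kU * kV - k ^ 2) :=
    mul_nonneg (mul_nonneg (sq_nonneg _) (by linarith)) hCS
  have e : -(α * αtt * (u1 * v2 - u2 * v1) ^ 2)
      - β * (βtt * XX + 2 * B * XYv + C * YY) - β ^ 2 * G * (kU * kV - k ^ 2)
      + c * ((u1 * u1 + α ^ 2 * (u2 * u2) + β ^ 2 * kU) * (v1 * v1 + α ^ 2 * (v2 * v2) + β ^ 2 * kV)
        - (u1 * v1 + α ^ 2 * (u2 * v2) + β ^ 2 * k) ^ 2) =
      -(α * (αtt - c * α) * (u1 * v2 - u2 * v1) ^ 2)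
      - β * ((βtt - c * β) * XX + 2 * B * XYv + (C - c * (β * α ^ 2)) * YY)
      - β ^ 2 * (G - c * β ^ 2) * (kU * kV - k ^ 2) := by
    rw [hXX, hXYv, hYY]
    ring
  linarith

end AB

/-- the Gram determinant is nonnegative -/
theorem gram_nonneg {V : Type} [NormedAddCommGroup V] [NormedSpace ℝ V] (h : RMetric V)
    (x u v : V) : 0 ≤ h.form x u u * h.form x v v - h.form x u v ^ 2 := by
  have hpos : ∀ z, 0 ≤ h.form x z z := by
    intro z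
    by_cases hz : z = 0
    · rw [hz]; simp
    · exact (h.pos' x z hz).le
  by_cases hv : v = 0
  · rw [hv]; simp
  · have hp := h.pos' x v hv
    have h1 := hpos (h.form x v v • u - h.form x u v • v)
    have h2 : h.form x (h.form x v v • u - h.form x u v • v)
        (h.form x v v • u - h.form x u v • v) =
        h.form x v v * (h.form x u u * h.form x v v - h.form x u v ^ 2) := by
      simp only [LinearMap.BilinForm.sub_left, LinearMap.BilinForm.sub_right,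
        LinearMap.BilinForm.smul_left, LinearMap.BilinForm.smul_right]
      rw [h.symm' x v u]
      ring
    rw [h2] at h1
    exact nonneg_of_mul_nonneg_right h1 hp

end Pool.Agent.Y671.BN
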