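import Pool.Agent.Y671.BN.Ineq
import Pool.Agent.Y671.BN.Bih

/-!
The metric `dt² + α² dr² + β² |dy|²` with
`α = cosh t - a(r) sinh t + η(r) (cosh t - 1)`, `β = W(r) (cosh t - b(r) sinh t)`.
-/

set_option autoImplicit false

namespace Pool.Agent.Y671.BN

open scoped ContDiff Topology
open Pool.Agent.W555.RG

namespace PD

variable {k k1 k2 l l1 l2 : ℝ → ℝ → ℝ}

theorem congr (h : PD k k1 k2) (h1 : ∀ t r, k1 t r = l1 t r) (h2 : ∀ t r, k2 t r = l2 t r) :
    PD k l1 l2 := by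
  intro t r
  rw [← h1, ← h2]
  exact h t r

theorem ofT {f f' : ℝ → ℝ} (h : ∀ t, HasDerivAt f (f' t) t) :
    PD (fun t _ => f t) (fun t _ => f' t) (fun _ _ => 0) := by
  intro t r
  have h1 : HasFDerivAt (fun p : ℝ × ℝ => p.1) (ContinuousLinearMap.fst ℝ ℝ ℝ) (t, r) :=
    (ContinuousLinearMap.fst ℝ ℝ ℝ).hasFDerivAt
  refine ((h t).comp_hasFDerivAt (t, r) h1).congr_fderiv ?_
  module

theorem ofR {f f' : ℝ → ℝ} (h : ∀ t, HasDerivAt f (f' t) t) :
    PD (fun _ r => f r) (fun _ _ => 0) (fun _ r => f' r) := by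
  intro t r
  have h1 : HasFDerivAt (fun p : ℝ × ℝ => p.2) (ContinuousLinearMap.snd ℝ ℝ ℝ) (t, r) :=
    (ContinuousLinearMap.snd ℝ ℝ ℝ).hasFDerivAt
  refine ((h r).comp_hasFDerivAt (t, r) h1).congr_fderiv ?_
  module

theorem add (h : PD k k1 k2) (h' : PD l l1 l2) :
    PD (fun t r => k t r + l t r) (fun t r => k1 t r + l1 t r) (fun t r => k2 t r + l2 t r) := by
  intro t r
  refine ((h t r).add (h' t r)).congr_fderiv ?_
  module

theorem sub (h : PD k k1 k2) (h' : PD l l1 l2) :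
    PD (fun t r => k t r - l t r) (fun t r => k1 t r - l1 t r) (fun t r => k2 t r - l2 t r) := by
  intro t r
  refine ((h t r).sub (h' t r)).congr_fderiv ?_
  module

theorem neg (h : PD k k1 k2) :
    PD (fun t r => -k t r) (fun t r => -k1 t r) (fun t r => -k2 t r) := by
  intro t r
  refine (h t r).neg.congr_fderiv ?_
  module

theorem mul (h : PD k k1 k2) (h' : PD l l1 l2) :
    PD (fun t r => k t r * l t r) (fun t r => k1 t r * l t r + k t r * l1 t r)
      (fun t r => k2 t r * l t r + k t r * l2 t r) := by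
  intro t r
  refine ((h t r).mul (h' t r)).congr_fderiv ?_
  module

theorem cosh : PD (fun t _ => Real.cosh t) (fun t _ => Real.sinh t) (fun _ _ => 0) :=
  ofT Real.hasDerivAt_cosh

theorem sinh : PD (fun t _ => Real.sinh t) (fun t _ => Real.cosh t) (fun _ _ => 0) :=
  ofT Real.hasDerivAt_sinh

theorem one : PD (fun _ _ => 1) (fun _ _ => 0) (fun _ _ => 0) :=
  ofT (f := fun _ => 1) (f' := fun _ => 0) (fun t => hasDerivAt_const t 1)

end PD

/-- The one-variable data. -/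
structure Sp where
  W : ℝ → ℝ
  w : ℝ → ℝ
  w1 : ℝ → ℝ
  a : ℝ → ℝ
  a1 : ℝ → ℝ
  a2 : ℝ → ℝ
  b : ℝ → ℝ
  b1 : ℝ → ℝ
  b2 : ℝ → ℝ
  η : ℝ → ℝ
  η1 : ℝ → ℝ
  η2 : ℝ → ℝ
  dW : ∀ r, HasDerivAt W (W r * w r) r
  dw : ∀ r, HasDerivAt w (w1 r) r
  da : ∀ r, HasDerivAt a (a1 r) r
  da1 : ∀ r, HasDerivAt a1 (a2 r) r
  db : ∀ r, HasDerivAt b (b1 r) r
  db1 : ∀ r, HasDerivAt b1 (b2 r) r
  dη : ∀ r, HasDerivAt η (η1 r) r
  dη1 : ∀ r, HasDerivAt η1 (η2 r) r
  sW : ContDiff ℝ ∞ W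
  sa : ContDiff ℝ ∞ a
  sb : ContDiff ℝ ∞ b
  sη : ContDiff ℝ ∞ η
  W_pos : ∀ r, 0 < W r
  ba : ∀ r, |a r| ≤ 1 / 3
  bb : ∀ r, |b r| ≤ 1 / 3
  bη : ∀ r, |η r| ≤ 1 / 100
  bab : ∀ r, |a r - b r| ≤ 1 / 100
  ba1 : ∀ r, |a1 r| ≤ 1 / 20
  bb1 : ∀ r, |b1 r| ≤ 1 / 20
  bb2 : ∀ r, |b2 r| ≤ 1 / 20
  bη1 : ∀ r, |η1 r| ≤ 1 / 20
  bw : ∀ r, 20 ≤ w r
  bw1 : ∀ r, 9 / 10 * w r ^ 2 ≤ w r ^ 2 + w1 r

namespace Sp

variable (S : Sp)

theorem abs_sinh_le (t : ℝ) : |Real.sinh t| ≤ Real.cosh t := by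
  rw [abs_le]
  constructor
  · have := Real.exp_pos t
    have h2 := Real.sinh_add_cosh t
    linarith
  · exact (Real.sinh_lt_cosh t).le

/-- lower bound for `cosh t - c sinh t` -/
theorem cs_lower {c t : ℝ} (hc : |c| ≤ 1 / 3) :
    2 / 3 * Real.cosh t ≤ Real.cosh t - c * Real.sinh t := by
  have h3 := (abs_le.mp (absmul_le hc (abs_sinh_le t))).2
  linarith

theorem α_lower (t r : ℝ) : 13 / 20 * Real.cosh t ≤
    Real.cosh t - S.a r * Real.sinh t + S.η r * (Real.cosh t - 1) := by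
  have h1 := cs_lower (t := t) (S.ba r)
  have h3 := Real.one_le_cosh t
  have h4 : |Real.cosh t - 1| ≤ Real.cosh t := by rw [abs_le]; constructor <;> linarith
  have h2 := (abs_le.mp (absmul_le (S.bη r) h4)).1
  linarith

/-- the coefficients of the ambient metric -/
noncomputable def toAB : AB where
  α t r := Real.cosh t - S.a r * Real.sinh t + S.η r * (Real.cosh t - 1)
  αt t r := Real.sinh t - S.a r * Real.cosh t + S.η r * Real.sinh t
  αr t r := -(S.a1 r * Real.sinh t) + S.η1 r * (Real.cosh t - 1)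
  αtt t r := Real.cosh t - S.a r * Real.sinh t + S.η r * Real.cosh t
  αtr t r := -(S.a1 r * Real.cosh t) + S.η1 r * Real.sinh t
  αrr t r := -(S.a2 r * Real.sinh t) + S.η2 r * (Real.cosh t - 1)
  β t r := S.W r * (Real.cosh t - S.b r * Real.sinh t)
  βt t r := S.W r * (Real.sinh t - S.b r * Real.cosh t)
  βr t r := S.W r * (S.w r * (Real.cosh t - S.b r * Real.sinh t) - S.b1 r * Real.sinh t)
  βtt t r := S.W r * (Real.cosh t - S.b r * Real.sinh t)
  βtr t r := S.W r * (S.w r * (Real.sinh t - S.b r * Real.cosh t) - S.b1 r * Real.cosh t)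
  βrr t r := S.W r * ((S.w r ^ 2 + S.w1 r) * (Real.cosh t - S.b r * Real.sinh t)
    - 2 * S.w r * S.b1 r * Real.sinh t - S.b2 r * Real.sinh t)
  dα := ((PD.cosh.sub ((PD.ofR S.da).mul PD.sinh)).add
    ((PD.ofR S.dη).mul (PD.cosh.sub PD.one))).congr (by intros; ring) (by intros; ring)
  dαt := ((PD.sinh.sub ((PD.ofR S.da).mul PD.cosh)).add
    ((PD.ofR S.dη).mul PD.sinh)).congr (by intros; ring) (by intros; ring)
  dαr := (((PD.ofR S.da1).mul PD.sinh).neg.add
    ((PD.ofR S.dη1).mul (PD.cosh.sub PD.one))).congr (by intros; ring) (by intros; ring)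
  dβ := ((PD.ofR S.dW).mul (PD.cosh.sub ((PD.ofR S.db).mul PD.sinh))).congr
    (by intros; ring) (by intros; ring)
  dβt := ((PD.ofR S.dW).mul (PD.sinh.sub ((PD.ofR S.db).mul PD.cosh))).congr
    (by intros; ring) (by intros; ring)
  dβr := ((PD.ofR S.dW).mul (((PD.ofR S.dw).mul (PD.cosh.sub ((PD.ofR S.db).mul PD.sinh))).sub
    ((PD.ofR S.db1).mul PD.sinh))).congr (by intros; ring) (by intros; ring)
  sα := by
    have h1 : ContDiff ℝ ∞ (fun p : ℝ × ℝ => S.a p.2) := S.sa.comp contDiff_snd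
    have h2 : ContDiff ℝ ∞ (fun p : ℝ × ℝ => Real.cosh p.1) := Real.contDiff_cosh.comp contDiff_fst
    have h3 : ContDiff ℝ ∞ (fun p : ℝ × ℝ => Real.sinh p.1) := Real.contDiff_sinh.comp contDiff_fst
    have h4 : ContDiff ℝ ∞ (fun p : ℝ × ℝ => S.η p.2) := S.sη.comp contDiff_snd
    exact (h2.sub (h1.mul h3)).add (h4.mul (h2.sub contDiff_const))
  sβ := by
    have h1 : ContDiff ℝ ∞ (fun p : ℝ × ℝ => S.b p.2) := S.sb.comp contDiff_snd
    have h2 : ContDiff ℝ ∞ (fun p : ℝ × ℝ => Real.cosh p.1) := Real.contDiff_cosh.comp contDiff_fst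
    have h3 : ContDiff ℝ ∞ (fun p : ℝ × ℝ => Real.sinh p.1) := Real.contDiff_sinh.comp contDiff_fst
    have h4 : ContDiff ℝ ∞ (fun p : ℝ × ℝ => S.W p.2) := S.sW.comp contDiff_snd
    exact h4.mul (h2.sub (h1.mul h3))
  α_pos t r := by
    have h1 := S.α_lower t r
    have h2 := Real.cosh_pos t
    linarith
  β_pos t r := by
    have h1 := cs_lower (t := t) (S.bb r)
    have h2 := Real.cosh_pos t
    exact mul_pos (S.W_pos r) (by linarith)

theorem aux (t r : ℝ) :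
    (S.toAB.βtr t r - S.toAB.αt t r / S.toAB.α t r * S.toAB.βr t r) ^ 2 ≤
      (S.toAB.βtt t r - 1 / 100 * S.toAB.β t r) * (S.toAB.βrr t r
        - S.toAB.αr t r / S.toAB.α t r * S.toAB.βr t r
        + S.toAB.α t r * S.toAB.αt t r * S.toAB.βt t r
        - 1 / 100 * (S.toAB.β t r * S.toAB.α t r ^ 2)) ∧
    1 / 100 * S.toAB.β t r ^ 2 ≤ S.toAB.βt t r ^ 2 + S.toAB.βr t r ^ 2 / S.toAB.α t r ^ 2 := by
  have hC := Real.cosh_pos t
  have hC1 := Real.one_le_cosh t
  have hCS := Real.cosh_sq t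
  have hW := S.W_pos r
  show (S.W r * (S.w r * (Real.sinh t - S.b r * Real.cosh t) - S.b1 r * Real.cosh t)
      - (Real.sinh t - S.a r * Real.cosh t + S.η r * Real.sinh t)
        / (Real.cosh t - S.a r * Real.sinh t + S.η r * (Real.cosh t - 1))
        * (S.W r * (S.w r * (Real.cosh t - S.b r * Real.sinh t) - S.b1 r * Real.sinh t))) ^ 2 ≤
      (S.W r * (Real.cosh t - S.b r * Real.sinh t)
        - 1 / 100 * (S.W r * (Real.cosh t - S.b r * Real.sinh t))) *
      (S.W r * ((S.w r ^ 2 + S.w1 r) * (Real.cosh t - S.b r * Real.sinh t)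
          - 2 * S.w r * S.b1 r * Real.sinh t - S.b2 r * Real.sinh t)
        - (-(S.a1 r * Real.sinh t) + S.η1 r * (Real.cosh t - 1))
          / (Real.cosh t - S.a r * Real.sinh t + S.η r * (Real.cosh t - 1))
          * (S.W r * (S.w r * (Real.cosh t - S.b r * Real.sinh t) - S.b1 r * Real.sinh t))
        + (Real.cosh t - S.a r * Real.sinh t + S.η r * (Real.cosh t - 1))
          * (Real.sinh t - S.a r * Real.cosh t + S.η r * Real.sinh t)
          * (S.W r * (Real.sinh t - S.b r * Real.cosh t))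
        - 1 / 100 * (S.W r * (Real.cosh t - S.b r * Real.sinh t)
          * (Real.cosh t - S.a r * Real.sinh t + S.η r * (Real.cosh t - 1)) ^ 2)) ∧
      1 / 100 * (S.W r * (Real.cosh t - S.b r * Real.sinh t)) ^ 2 ≤
        (S.W r * (Real.sinh t - S.b r * Real.cosh t)) ^ 2
        + (S.W r * (S.w r * (Real.cosh t - S.b r * Real.sinh t) - S.b1 r * Real.sinh t)) ^ 2
          / (Real.cosh t - S.a r * Real.sinh t + S.η r * (Real.cosh t - 1)) ^ 2
  generalize Real.cosh t = C at *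
  generalize Real.sinh t = s at *
  have hu : 0 < C⁻¹ := inv_pos.mpr hC
  have hu1 : C⁻¹ ≤ 1 := inv_le_one_of_one_le₀ hC1
  have hT : (s / C) ^ 2 + C⁻¹ ^ 2 = 1 := by
    field_simp
    linarith
  have hk := key_real hu hu1 hT (S.ba r) (S.bb r) (S.bη r)
    (S.bab r) (S.ba1 r) (S.bb1 r) (S.bb2 r) (S.bη1 r) (S.bw r) (S.bw1 r) _ _ _ _ _
    rfl rfl rfl rfl rfl
  obtain ⟨hA, hA2⟩ := A_bd hu hu1 hT (S.ba r) (S.bη r)
  obtain ⟨hB, hB2⟩ := B_bd hT (S.bb r)
  have hg := grad_bd hu hT (S.bb r) (S.bb1 r) (S.bw r) hA hA2 hB hB2 rfl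
  set A := 1 + S.η r - S.a r * (s / C) - S.η r * C⁻¹ with hAdef
  set B := 1 - S.b r * (s / C) with hBdef
  set X := (1 + S.η r) * (s / C) - S.a r with hXdef
  set Y := s / C - S.b r with hYdef
  set Z := -(S.a1 r * (s / C)) + S.η1 r * (1 - C⁻¹) with hZdef
  have eA : C - S.a r * s + S.η r * (C - 1) = C * A := by
    rw [hAdef]; field_simp; ring
  have eB : C - S.b r * s = C * B := by
    rw [hBdef]; field_simp
  have eX : s - S.a r * C + S.η r * s = C * X := by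
    rw [hXdef]; field_simp; ring
  have eY : s - S.b r * C = C * Y := by
    rw [hYdef]; field_simp
  have eZ : -(S.a1 r * s) + S.η1 r * (C - 1) = C * Z := by
    rw [hZdef]; field_simp
  rw [eA, eB, eX, eY, eZ]
  have hA0 : A ≠ 0 := by
    have : 0 < A := by linarith
    exact this.ne'
  have hC0 : C ≠ 0 := hC.ne'
  constructor
  · have e1 : S.W r * (S.w r * (C * Y) - S.b1 r * C)
        - C * X / (C * A) * (S.W r * (S.w r * (C * B) - S.b1 r * s)) =
        S.W r * C * (S.w r * Y - S.b1 r - X / A * (S.w r * B - S.b1 r * (s / C))) := by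
      field_simp
    have e2 : (S.W r * (C * B) - 1 / 100 * (S.W r * (C * B))) *
        (S.W r * ((S.w r ^ 2 + S.w1 r) * (C * B)
          - 2 * S.w r * S.b1 r * s - S.b2 r * s)
        - C * Z / (C * A) * (S.W r * (S.w r * (C * B) - S.b1 r * s))
        + C * A * (C * X) * (S.W r * (C * Y))
        - 1 / 100 * (S.W r * (C * B) * (C * A) ^ 2)) =
        (S.W r * C) ^ 2 * (99 / 100 * B * ((S.w r ^ 2 + S.w1 r) * B - 2 * S.w r * S.b1 r * (s / C)
          - S.b2 r * (s / C) - Z / A * (S.w r * B - S.b1 r * (s / C))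
          + (A * X * Y / C⁻¹ ^ 2 - 1 / 100 * (B * A ^ 2 / C⁻¹ ^ 2)))) := by
      field_simp
      ring
    rw [e1, e2, mul_pow]
    exact mul_le_mul_of_nonneg_left hk (by positivity)
  · have e1 : 1 / 100 * (S.W r * (C * B)) ^ 2 = (S.W r * C) ^ 2 * (1 / 100 * B ^ 2) := by ring
    have e2 : (S.W r * (C * Y)) ^ 2 + (S.W r * (S.w r * (C * B) - S.b1 r * s)) ^ 2 / (C * A) ^ 2 =
        (S.W r * C) ^ 2 * (Y ^ 2 + (S.w r * B - S.b1 r * (s / C)) ^ 2 * C⁻¹ ^ 2 / A ^ 2) := by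
      field_simp
    rw [e1, e2]
    exact mul_le_mul_of_nonneg_left hg (by positivity)

theorem toAB_curv_le {K : Type} [NormedAddCommGroup K] [InnerProductSpace ℝ K]
    (x U V : NK K) :
    S.toAB.h.form x (S.toAB.h.curv x U V V) U ≤
      -(1 / 100 * (S.toAB.h.form x U U * S.toAB.h.form x V V - S.toAB.h.form x U V ^ 2)) := by
  apply AB.curv_le
  · intro t r
    have h1 := S.α_lower t r
    have h2 := Real.one_le_cosh t
    obtain ⟨h3, h4⟩ := abs_le.mp (S.bη r)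
    show 1 / 100 * (Real.cosh t - S.a r * Real.sinh t + S.η r * (Real.cosh t - 1)) ≤
      Real.cosh t - S.a r * Real.sinh t + S.η r * Real.cosh t
    have e : Real.cosh t - S.a r * Real.sinh t + S.η r * Real.cosh t =
      (Real.cosh t - S.a r * Real.sinh t + S.η r * (Real.cosh t - 1)) + S.η r := by ring
    rw [e]
    linarith
  · intro t r
    have h1 := S.toAB.β_pos t r
    have e : S.toAB.βtt t r = S.toAB.β t r := rfl
    rw [e]
    linarith
  · intro t r
    exact (S.aux t r).1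
  · intro t r
    exact (S.aux t r).2

theorem toAB_nonpos {K : Type} [NormedAddCommGroup K] [InnerProductSpace ℝ K] :
    (S.toAB.h (K := K)).Nonpos := by
  intro x U V
  have h1 := S.toAB_curv_le x U V
  have h2 := gram_nonneg S.toAB.h x U V
  linarith

end Sp

end Pool.Agent.Y671.BN
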